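import Pool.Agent.Lib.MP_42948a_nt.BM.Defs

/-!
# `Ω` modulo an odd prime at the exponent `k / 3`, every modulus: definitions

Library `TB`: the variant of the library `BM` with three factors of length `d ^ (1/3 + ..)` in place of four factors of length `d ^ (1/4 + ..)`. All the definitions of `BM/Defs.lean` are used.
`BurP (1 / 12 + κ) κ' d` is the bound for all nonprincipal characters mod `d` and all lengths `≥ d ^ (1/4 + (1/12 + κ)) = d ^ (1/3 + κ)`.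
-/

namespace Pool.Agent.Lib.MP_42948a_nt.TB

open Finset Pool.Agent.Lib.MP_42948a_nt.OA Pool.Agent.Lib.MP_42948a_nt.OM Pool.Agent.Lib.MP_42948a_nt.BM

/-- Burgess' bound with the exponent `1 / 3` for all characters and all moduli (proved in `TH`) -/
def Bur3 : Prop :=
  ∀ κ : ℝ, 0 < κ → ∃ κ' : ℝ, 0 < κ' ∧ ∃ d0 : ℕ, ∀ d : ℕ, d0 ≤ d → BurP (1 / 12 + κ) κ' d

/-- all but `d ^ (1 - c)` classes have at least `k` residues at the exponent `x + ε` -/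
def PB3 (m k : ℕ) (x ε δ c : ℝ) : Prop :=
  ∃ d0 : ℕ, ∀ d : ℕ, d0 ≤ d → ∃ E : Finset (ZMod d)ˣ, (E.card : ℝ) ≤ (d : ℝ) ^ (1 - c) ∧
    ∀ b : (ZMod d)ˣ, b ∉ E → k ≤ (OmSet m ⌊(d : ℝ) ^ δ⌋₊ ⌊(d : ℝ) ^ (x + ε)⌋₊ b).card

end Pool.Agent.Lib.MP_42948a_nt.TB
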