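import Pool.Agent.Lib.MP_42948a_nt.TB.P
import Pool.Agent.Lib.MP_42948a_nt.TH.M2

/-!
# The final theorem for every modulus
-/

namespace Pool.Agent.Lib.MP_42948a_nt.TB

theorem final_third (m : ℕ) (hm : m.Prime) (hm2 : m ≠ 2) (ε : ℝ) (hε : 0 < ε) :
    ∃ δ c : ℝ, 0 < δ ∧ 0 < c ∧ ∃ d₀ : ℕ, ∀ d : ℕ, d₀ ≤ d → ∀ k : ℕ, 3 ≤ k →
      ∀ J : Finset (ZMod m), J.Nonempty → ∃ B : Finset (ZMod d)ˣ,
        min 1 (((k : ℝ) + J.card - 1) / m) * (d.totient : ℝ) -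
          (if 6 ≤ k ∧ m + 2 ≤ k + J.card then 0 else (d : ℝ) ^ (1 - c)) ≤ B.card ∧
        ∀ b ∈ B, ∃ n : ℕ, 0 < n ∧ (n : ℝ) ≤ (d : ℝ) ^ ((k : ℝ) / 3 + ε) ∧ (n : ZMod d) = (b : ZMod d) ∧
          (∀ p : ℕ, p.Prime → p ∣ n → (d : ℝ) ^ δ < p) ∧
          (ArithmeticFunction.cardFactors n : ZMod m) ∈ J :=
  final3 Pool.Agent.Lib.MP_42948a_nt.TH.bur3 m hm hm2 ε hε

end Pool.Agent.Lib.MP_42948a_nt.TB
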