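import Pool.Agent.Lib.MP_42948a_nt.TB.Defs
import Pool.Agent.Lib.MP_42948a_nt.BM.G5

/-!
# Two steps (job G5)

Copy `three_steps` of `BM/G5.lean` (with its private lemmas) and stop after two steps; the constants `kp3`, `rh3` are kept. `F0_nonneg`, `F0_blk`, `growth`, `full_step`, `Blk_mono`, `stp_nonneg` come from `BM`.
First step: `growth` gives `Blk _ (J.card + 1) (1 * δ * gam) rh1`. If `J.card + 1 < m`: `growth` again gives `Blk _ (J.card + 2) (1 * δ * gam * rh1 * gam) rh1` with `m ≤ J.card + 2`, and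
`kp3 * δ = gam ^ 3 * (rh1 / 2) ^ 2 * δ ≤ δ * gam ^ 2 * rh1` (`gam ≤ 1/24`, `rh1 ≤ 1`), `rh3 = rh1 / 4 ≤ rh1`. If `J.card + 1 = m`: `full_step` gives `Blk _ m (1 * δ * gam * rh1 / 2) (rh1 / 2)`.
(`rh1 ≤ 1`: `rh1 = β ^ 4 / 200`.)
-/

namespace Pool.Agent.Lib.MP_42948a_nt.TB

open Finset Pool.Agent.Lib.MP_42948a_nt.OA Pool.Agent.Lib.MP_42948a_nt.OM Pool.Agent.Lib.MP_42948a_nt.BM

private theorem TBG5_gam {m : ℕ} {β : ℝ} (hβ : 0 < β) (hβ1 : β ≤ 1) :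
    0 < gam m β ∧ gam m β ≤ 1 / 24 := by
  have h1 : (1 : ℝ) ≤ 2 ^ m := one_le_pow₀ (by norm_num)
  have h2 : 0 < β ^ 2 := by positivity
  have h3 : β ^ 2 ≤ 1 := pow_le_one₀ hβ.le hβ1
  unfold gam
  constructor
  · positivity
  · rw [div_le_div_iff₀ (by positivity) (by norm_num)]
    nlinarith

private theorem TBG5_rh {β : ℝ} (hβ : 0 < β) (hβ1 : β ≤ 1) : 0 < rh1 β ∧ rh1 β ≤ 1 := by
  have h3 : β ^ 4 ≤ 1 := pow_le_one₀ hβ.le hβ1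
  unfold rh1
  constructor
  · positivity
  · linarith

private theorem TBG5_c1 {δ γ r : ℝ} (hδ : 0 < δ) (hγ : 0 < γ) (hγ1 : γ ≤ 1 / 24) (hr : 0 < r)
    (hr1 : r ≤ 1) : γ ^ 3 * (r / 2) ^ 2 * δ ≤ 1 * δ * γ * r * γ := by
  have h3 : 0 ≤ δ * γ ^ 2 * r := by positivity
  have h4 : γ * r ≤ 1 := by nlinarith
  have h5 : δ * γ ^ 2 * r * (γ * r) ≤ δ * γ ^ 2 * r * 1 :=
    mul_le_mul_of_nonneg_left h4 h3
  have h6 : 0 ≤ δ * γ ^ 2 * r * (γ * r) := by positivity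
  nlinarith

private theorem TBG5_c2 {δ γ r : ℝ} (hδ : 0 < δ) (hγ : 0 < γ) (hγ1 : γ ≤ 1 / 24) (hr : 0 < r)
    (hr1 : r ≤ 1) : γ ^ 3 * (r / 2) ^ 2 * δ ≤ 1 * δ * γ * r / 2 := by
  have h3 : 0 ≤ δ * γ * r := by positivity
  have h4 : γ ^ 2 * r ≤ 1 := by nlinarith
  have h5 : δ * γ * r * (γ ^ 2 * r) ≤ δ * γ * r * 1 :=
    mul_le_mul_of_nonneg_left h4 h3
  have h6 : 0 ≤ δ * γ * r * (γ ^ 2 * r) := by positivity
  nlinarith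

theorem two_steps {m d : ℕ} (hm : m.Prime) [NeZero m] [NeZero d] {z Y : ℕ} {β τ s s2 : ℝ}
    (W : Wlk m d z Y β τ s s2) (hβ : 0 < β) (hβ1 : β ≤ 1) (hτ : τ ≤ β ^ 2 / 100) (hs0 : 0 < s) (hs : s ≤ β ^ 2 / 100)
    (hs1 : s ≤ rh1 β / 2) (B : Finset (ZMod d)ˣ) (J : Finset (ZMod m)) (hB : s * (d.totient : ℝ) ≤ B.card)
    (hJ1 : 1 ≤ J.card) (hJ2 : J.card < m) (hJ3 : m ≤ J.card + 2) :
    Blk (stp W.Q W.ω (stp W.Q W.ω (F0 B J))) m (kp3 m β * ((B.card : ℝ) / (d.totient : ℝ))) (rh3 β) := by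
  have hφ : (0 : ℝ) < (d.totient : ℝ) := by
    exact_mod_cast Nat.totient_pos.2 (NeZero.pos d)
  obtain ⟨hγ0, hγ1⟩ := TBG5_gam (m := m) hβ hβ1
  obtain ⟨hr0, hr1⟩ := TBG5_rh hβ hβ1
  have hδ : s ≤ (B.card : ℝ) / (d.totient : ℝ) := by
    rw [le_div_iff₀ hφ]
    exact hB
  have hδ0 : 0 < (B.card : ℝ) / (d.totient : ℝ) := lt_of_lt_of_le hs0 hδ
  have hsr : s ≤ rh1 β := by linarith
  have n0 : ∀ g x, 0 ≤ F0 B J g x := F0_nonneg B J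
  have n1 : ∀ g x, 0 ≤ stp W.Q W.ω (F0 B J) g x := stp_nonneg W.Q W.ω W.nonneg _ n0
  have b1 := growth hm W hβ hβ1 hτ hs0 hs (F0 B J) n0 J.card hJ1 hJ2 1 _ zero_le_one hδ (F0_blk B J)
  have e1 : kp3 m β = gam m β ^ 3 * (rh1 β / 2) ^ 2 := rfl
  have e2 : rh3 β = rh1 β / 4 := rfl
  rw [e1, e2]
  have p1 : 0 ≤ 1 * ((B.card : ℝ) / (d.totient : ℝ)) * gam m β := by positivity
  rcases Nat.lt_or_ge (J.card + 1) m with h1 | h1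
  · have b2 := growth hm W hβ hβ1 hτ hs0 hs _ n1 (J.card + 1) (Nat.succ_pos _) h1 _ _ p1 hsr b1
    exact Blk_mono b2 (by omega) (TBG5_c1 hδ0 hγ0 hγ1 hr0 hr1) (by linarith)
  · have h4 : J.card + 1 = m := by omega
    rw [h4] at b1
    have b2 := full_step W _ n1 _ _ p1 hr0.le b1
    exact Blk_mono b2 le_rfl (TBG5_c2 hδ0 hγ0 hγ1 hr0 hr1) (by linarith)

end Pool.Agent.Lib.MP_42948a_nt.TB
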