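import Pool.Agent.Lib.MP_42948a_nt.TB.N13
import Pool.Agent.Lib.MP_42948a_nt.TB.S3
import Pool.Agent.Lib.MP_42948a_nt.BM.K

/-!
# Almost all classes have `min m k` residues (job K)

Copy `PB_base`, `PB_succ`, `PB_all`, `K_uniform` of `BM/K.lean` without `θ` and `Cub`: `PB3` in place of `PB`, `Bur3` in place of `BurgessAll` (`hBur (η / 2)` gives `BurP (1 / 12 + η / 2) κ' d` for all `d ≥ dB`), `wlk_exists3` and `base_sets3`
(`Y ^ 3 ≤ X''`: `(1/3 + 3 η) * 3 = 1 + 9 η ≤ 1 + ε`, so `η = min (ε / 12) (1 / 8)` still works), `min m 3`, the exponents `x + 1 / 3` and `k / 3`. `K_small`, `step_sets` and the lemmas of `OM/K.lean` can be cited.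
-/

namespace Pool.Agent.Lib.MP_42948a_nt.TB

open Finset Pool.Agent.Lib.MP_42948a_nt.OA Pool.Agent.Lib.MP_42948a_nt.OM Pool.Agent.Lib.MP_42948a_nt.BM

theorem PB3_base (hBur : Bur3) (m : ℕ) (hm : m.Prime) (hm3 : 3 ≤ m) (ε : ℝ) (hε : 0 < ε) :
    ∃ δ c : ℝ, 0 < δ ∧ 0 < c ∧ c < 1 ∧ PB3 m (min m 3) 1 ε δ c := by
  classical
  obtain ⟨η, hη⟩ : ∃ η : ℝ, η = min (ε / 12) (1 / 8) := ⟨_, rfl⟩
  have hη0 : 0 < η := by rw [hη]; exact lt_min (by linarith) (by norm_num)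
  have hη1 : η ≤ 1 / 8 := by rw [hη]; exact min_le_right _ _
  have hη2 : η ≤ ε / 12 := by rw [hη]; exact min_le_left _ _
  have : NeZero m := ⟨by omega⟩
  obtain ⟨κ', hκ', dB, hdB⟩ := hBur (η / 2) (by linarith)
  obtain ⟨δ, β, c, hδ, hβ, hβ1, hc, hc1, hW⟩ := wlk_exists3 m hm3 η κ' hη0 hη1 hκ'
  obtain ⟨s0, hs0, hbase⟩ := base_sets3 m hm hm3 β hβ hβ1
  obtain ⟨d0, hd0, hdat⟩ := hW s0 hs0
  obtain ⟨d1, hd1⟩ := K_large (2 ^ m) (c / 2) (by linarith)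
  obtain ⟨d2, hd2⟩ := K_small c s0 hc hs0
  refine ⟨δ, c / 2, hδ, by linarith, by linarith, max (max d0 dB) (max d1 d2), fun d hd => ?_⟩
  have hdd0 : d0 ≤ d := (le_max_left _ _).trans ((le_max_left _ _).trans hd)
  have hddB : dB ≤ d := (le_max_right _ _).trans ((le_max_left _ _).trans hd)
  have hdd1 : d1 ≤ d := (le_max_left _ _).trans ((le_max_right _ _).trans hd)
  have hdd2 : d2 ≤ d := (le_max_right _ _).trans ((le_max_right _ _).trans hd)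
  have hd3 : 2 ≤ d := hd0.trans hdd0
  have : NeZero d := ⟨by omega⟩
  obtain ⟨W, hW6⟩ := hdat d hdd0 (hdB d hddB)
  have hD1 : (1 : ℝ) ≤ d := by exact_mod_cast (by omega : 1 ≤ d)
  have hD0 : (0 : ℝ) < d := by linarith
  have hX : ⌊(d : ℝ) ^ (1 / 3 + 3 * η)⌋₊ ^ 3 ≤ ⌊(d : ℝ) ^ ((1 : ℝ) + ε)⌋₊ := by
    apply Nat.le_floor
    rw [Nat.cast_pow]
    calc (⌊(d : ℝ) ^ (1 / 3 + 3 * η)⌋₊ : ℝ) ^ 3 ≤ ((d : ℝ) ^ (1 / 3 + 3 * η)) ^ 3 :=
          pow_le_pow_left₀ (Nat.cast_nonneg _) (Nat.floor_le (Real.rpow_nonneg hD0.le _)) _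
      _ = (d : ℝ) ^ (1 + 9 * η) := by
          rw [← Real.rpow_natCast, ← Real.rpow_mul hD0.le]
          congr 1
          push_cast
          ring
      _ ≤ (d : ℝ) ^ ((1 : ℝ) + ε) := Real.rpow_le_rpow_of_exponent_le hD1 (by linarith)
  have hB := hbase d _ _ _ _ _ W hW6 le_rfl (Real.rpow_pos_of_pos hD0 _) (hd2 d hdd2) hs0.le le_rfl
    ⌊(d : ℝ) ^ δ⌋₊ ⌊(d : ℝ) ^ ((1 : ℝ) + ε)⌋₊ le_rfl hX
    (univ.filter fun b => (OmSet m ⌊(d : ℝ) ^ δ⌋₊ ⌊(d : ℝ) ^ ((1 : ℝ) + ε)⌋₊ b).card < min m 3)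
    (fun b hb => (mem_filter.mp hb).2)
  refine ⟨_, hB.trans ?_, fun b hb => ?_⟩
  · have h1 := hd1 d hdd1
    have h2 : (d.totient : ℝ) ≤ d := by exact_mod_cast Nat.totient_le d
    have h3 : (d : ℝ) ^ (-c) * (d.totient : ℝ) ≤ (d : ℝ) ^ (1 - c) := by
      calc (d : ℝ) ^ (-c) * (d.totient : ℝ) ≤ (d : ℝ) ^ (-c) * d :=
            mul_le_mul_of_nonneg_left h2 (Real.rpow_nonneg hD0.le _)
        _ = (d : ℝ) ^ (-c) * (d : ℝ) ^ (1 : ℝ) := by rw [Real.rpow_one]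
        _ = (d : ℝ) ^ (1 - c) := by
            rw [← Real.rpow_add hD0]
            congr 1
            ring
    calc (2 : ℝ) ^ m * ((d : ℝ) ^ (-c) * (d.totient : ℝ)) ≤ (d : ℝ) ^ (c / 2) * (d : ℝ) ^ (1 - c) :=
          mul_le_mul h1 h3 (mul_nonneg (Real.rpow_nonneg hD0.le _) (Nat.cast_nonneg _))
            (Real.rpow_nonneg hD0.le _)
      _ = (d : ℝ) ^ (1 - c / 2) := by
          rw [← Real.rpow_add hD0]
          congr 1
          ring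
  · by_contra hcon
    exact hb (mem_filter.mpr ⟨mem_univ _, by omega⟩)

theorem PB3_succ (hBur : Bur3) (m : ℕ) (hm : m.Prime) (hm3 : 3 ≤ m) (k : ℕ) (hk1 : 1 ≤ k) (hkm : k < m) (x : ℝ)
    (h : ∀ ε : ℝ, 0 < ε → ∃ δ c : ℝ, 0 < δ ∧ 0 < c ∧ c < 1 ∧ PB3 m k x ε δ c) (ε : ℝ) (hε : 0 < ε) :
    ∃ δ c : ℝ, 0 < δ ∧ 0 < c ∧ c < 1 ∧ PB3 m (k + 1) (x + 1 / 3) ε δ c := by
  classical
  obtain ⟨δ', c', hδ', hc', hc'1, d2, hd2⟩ := h (ε / 2) (by linarith)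
  obtain ⟨η, hη⟩ : ∃ η : ℝ, η = min (ε / 6) (1 / 8) := ⟨_, rfl⟩
  have hη0 : 0 < η := by rw [hη]; exact lt_min (by linarith) (by norm_num)
  have hη1 : η ≤ 1 / 8 := by rw [hη]; exact min_le_right _ _
  have hη2 : η ≤ ε / 6 := by rw [hη]; exact min_le_left _ _
  have : NeZero m := ⟨by omega⟩
  obtain ⟨κ', hκ', dB, hdB⟩ := hBur (η / 2) (by linarith)
  obtain ⟨δ1, β, c1, hδ1, hβ, hβ1, hc1, hc11, hW⟩ := wlk_exists3 m hm3 η κ' hη0 hη1 hκ'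
  obtain ⟨d0, hd0, hdat⟩ := hW 1 one_pos
  obtain ⟨c, hc⟩ : ∃ c : ℝ, c = min c' (2 * c1) / 2 := ⟨_, rfl⟩
  have hc0 : 0 < c := by
    rw [hc]
    have := lt_min hc' (by linarith : 0 < 2 * c1)
    linarith
  have hcc' : 2 * c ≤ c' := by
    rw [hc]
    have := min_le_left c' (2 * c1)
    linarith
  have hcc1 : 2 * c ≤ 2 * c1 := by
    rw [hc]
    have := min_le_right c' (2 * c1)
    linarith
  obtain ⟨d1, hd1⟩ := K_large (16 / β ^ 2 + 256 / β ^ 4) c hc0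
  refine ⟨min δ' δ1, c, lt_min hδ' hδ1, hc0, by linarith,
    max (max d2 dB) (max d0 d1), fun d hd => ?_⟩
  have hdd2 : d2 ≤ d := (le_max_left _ _).trans ((le_max_left _ _).trans hd)
  have hddB : dB ≤ d := (le_max_right _ _).trans ((le_max_left _ _).trans hd)
  have hdd0 : d0 ≤ d := (le_max_left _ _).trans ((le_max_right _ _).trans hd)
  have hdd1 : d1 ≤ d := (le_max_right _ _).trans ((le_max_right _ _).trans hd)
  have hd3 : 2 ≤ d := hd0.trans hdd0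
  have : NeZero d := ⟨by omega⟩
  obtain ⟨W, _⟩ := hdat d hdd0 (hdB d hddB)
  obtain ⟨E, hE, hE'⟩ := hd2 d hdd2
  have hD1 : (1 : ℝ) ≤ d := by exact_mod_cast (by omega : 1 ≤ d)
  have hD0 : (0 : ℝ) < d := by linarith
  have hX : ⌊(d : ℝ) ^ (1 / 3 + 3 * η)⌋₊ * ⌊(d : ℝ) ^ (x + ε / 2)⌋₊ ≤ ⌊(d : ℝ) ^ (x + 1 / 3 + ε)⌋₊ := by
    refine (M_floor_mul (Real.rpow_nonneg hD0.le _) (Real.rpow_nonneg hD0.le _)).trans ?_
    apply Nat.floor_le_floor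
    rw [← Real.rpow_add hD0]
    exact Real.rpow_le_rpow_of_exponent_le hD1 (by linarith)
  have hB := step_sets hm W hβ (Real.rpow_nonneg hD0.le _) k hk1 hkm ⌊(d : ℝ) ^ δ'⌋₊ ⌊(d : ℝ) ^ (min δ' δ1)⌋₊
    ⌊(d : ℝ) ^ (x + ε / 2)⌋₊ ⌊(d : ℝ) ^ (x + 1 / 3 + ε)⌋₊
    (Nat.floor_le_floor (Real.rpow_le_rpow_of_exponent_le hD1 (min_le_right _ _)))
    (Nat.floor_le_floor (Real.rpow_le_rpow_of_exponent_le hD1 (min_le_left _ _)))
    hX E (univ.filter fun b => (OmSet m ⌊(d : ℝ) ^ (min δ' δ1)⌋₊ ⌊(d : ℝ) ^ (x + 1 / 3 + ε)⌋₊ b).card ≤ k)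
    hE' (fun b hb => (mem_filter.mp hb).2)
  refine ⟨_, hB.trans ?_, fun b hb => ?_⟩
  · have h1 := hd1 d hdd1
    have h2 : (d : ℝ) ^ (1 - c') ≤ (d : ℝ) ^ (1 - 2 * c) :=
      Real.rpow_le_rpow_of_exponent_le hD1 (by linarith)
    have h3 : ((d : ℝ) ^ (-c1)) ^ 2 * (d.totient : ℝ) ≤ (d : ℝ) ^ (1 - 2 * c) := by
      have h4 : (d.totient : ℝ) ≤ d := by exact_mod_cast Nat.totient_le d
      calc ((d : ℝ) ^ (-c1)) ^ 2 * (d.totient : ℝ) ≤ ((d : ℝ) ^ (-c1)) ^ 2 * d :=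
            mul_le_mul_of_nonneg_left h4 (by positivity)
        _ = (d : ℝ) ^ (1 - 2 * c1) := by
            rw [← Real.rpow_natCast, ← Real.rpow_mul hD0.le]
            nth_rewrite 2 [← Real.rpow_one (d : ℝ)]
            rw [← Real.rpow_add hD0]
            congr 1
            push_cast
            ring
        _ ≤ (d : ℝ) ^ (1 - 2 * c) := Real.rpow_le_rpow_of_exponent_le hD1 (by linarith)
    calc 16 / β ^ 2 * (E.card : ℝ) + 256 * ((d : ℝ) ^ (-c1)) ^ 2 * (d.totient : ℝ) / β ^ 4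
        = 16 / β ^ 2 * (E.card : ℝ) + 256 / β ^ 4 * (((d : ℝ) ^ (-c1)) ^ 2 * (d.totient : ℝ)) := by ring
      _ ≤ 16 / β ^ 2 * (d : ℝ) ^ (1 - 2 * c) + 256 / β ^ 4 * (d : ℝ) ^ (1 - 2 * c) := by
          apply add_le_add
          · exact mul_le_mul_of_nonneg_left (hE.trans h2) (by positivity)
          · exact mul_le_mul_of_nonneg_left h3 (by positivity)
      _ = (16 / β ^ 2 + 256 / β ^ 4) * (d : ℝ) ^ (1 - 2 * c) := by ring
      _ ≤ (d : ℝ) ^ c * (d : ℝ) ^ (1 - 2 * c) :=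
          mul_le_mul_of_nonneg_right h1 (Real.rpow_nonneg hD0.le _)
      _ = (d : ℝ) ^ (1 - c) := by
          rw [← Real.rpow_add hD0]
          congr 1
          ring
  · by_contra hcon
    exact hb (mem_filter.mpr ⟨mem_univ _, by omega⟩)

theorem PB3_all (hBur : Bur3) (m : ℕ) (hm : m.Prime) (hm3 : 3 ≤ m) (k : ℕ) (hk : 3 ≤ k) (ε : ℝ) (hε : 0 < ε) :
    ∃ δ c : ℝ, 0 < δ ∧ 0 < c ∧ c < 1 ∧ PB3 m (min m k) ((k : ℝ) / 3) ε δ c := by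
  induction k, hk using Nat.le_induction generalizing ε with
  | base =>
    have h := PB3_base hBur m hm hm3 ε hε
    have h4 : (((3 : ℕ) : ℝ) / 3) = 1 := by norm_num
    rw [h4]
    exact h
  | succ k hk ih =>
    rcases Nat.lt_or_ge k m with hkm | hkm
    · have h1 : min m (k + 1) = k + 1 := min_eq_right (by omega)
      have h2 : min m k = k := min_eq_right (by omega)
      rw [h1]
      rw [h2] at ih
      have h3 : (((k + 1 : ℕ) : ℝ) / 3) = (k : ℝ) / 3 + 1 / 3 := by push_cast; ring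
      rw [h3]
      exact PB3_succ hBur m hm hm3 k (by omega) hkm _ (fun ε' hε' => ih ε' hε') ε hε
    · obtain ⟨δ, c, hδ, hc, hc1, d0, hd0⟩ := ih ε hε
      have h1 : min m (k + 1) = min m k := by omega
      rw [h1]
      refine ⟨δ, c, hδ, hc, hc1, max d0 1, fun d hd => ?_⟩
      have hdd0 : d0 ≤ d := (le_max_left _ _).trans hd
      have hD1 : (1 : ℝ) ≤ d := by exact_mod_cast (le_max_right _ _).trans hd
      obtain ⟨E, hE1, hE2⟩ := hd0 d hdd0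
      refine ⟨E, hE1, fun b hb => (hE2 b hb).trans (card_le_card (M_mono le_rfl ?_ b))⟩
      apply Nat.floor_le_floor
      apply Real.rpow_le_rpow_of_exponent_le hD1
      push_cast
      linarith

theorem K3_uniform (hBur : Bur3) (m : ℕ) (hm : m.Prime) (hm3 : 3 ≤ m) (ε : ℝ) (hε : 0 < ε) (δ1 : ℝ) (hδ1 : 0 < δ1)
    (K : ℕ) :
    ∃ δ c : ℝ, 0 < δ ∧ δ ≤ δ1 ∧ 0 < c ∧ c < 1 ∧ ∃ d0 : ℕ, ∀ d : ℕ, d0 ≤ d → ∀ k : ℕ, 3 ≤ k → k ≤ K →
      ∃ E : Finset (ZMod d)ˣ, (E.card : ℝ) ≤ (d : ℝ) ^ (1 - c) ∧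
        ∀ b : (ZMod d)ˣ, b ∉ E → min m k ≤ (OmSet m ⌊(d : ℝ) ^ δ⌋₊ ⌊(d : ℝ) ^ ((k : ℝ) / 3 + ε)⌋₊ b).card := by
  induction K with
  | zero =>
    exact ⟨δ1, 1 / 2, hδ1, le_rfl, by norm_num, by norm_num, 0, fun d _ k h2 h0 => by omega⟩
  | succ K ih =>
    obtain ⟨δ, c, hδ, hδ', hc, hc1, d0, hd0⟩ := ih
    by_cases hK2 : 3 ≤ K + 1
    · obtain ⟨δ', c', h1, h2, h3, d0', hd0'⟩ := PB3_all hBur m hm hm3 (K + 1) hK2 ε hε
      refine ⟨min δ δ', min c c', lt_min hδ h1, (min_le_left _ _).trans hδ', lt_min hc h2,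
        lt_of_le_of_lt (min_le_left _ _) hc1, max (max d0 d0') 1, fun d hd k hk2 hkK => ?_⟩
      have hdd0 : d0 ≤ d := (le_max_left _ _).trans ((le_max_left _ _).trans hd)
      have hdd0' : d0' ≤ d := (le_max_right _ _).trans ((le_max_left _ _).trans hd)
      have hd1' : 1 ≤ d := (le_max_right _ _).trans hd
      have hd1 : (1 : ℝ) ≤ d := by exact_mod_cast hd1'
      have hz1 : ⌊(d : ℝ) ^ (min δ δ')⌋₊ ≤ ⌊(d : ℝ) ^ δ⌋₊ :=
        Nat.floor_le_floor (Real.rpow_le_rpow_of_exponent_le hd1 (min_le_left _ _))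
      have hz2 : ⌊(d : ℝ) ^ (min δ δ')⌋₊ ≤ ⌊(d : ℝ) ^ δ'⌋₊ :=
        Nat.floor_le_floor (Real.rpow_le_rpow_of_exponent_le hd1 (min_le_right _ _))
      rcases Nat.lt_or_ge K k with hk | hk
      · have hkk : k = K + 1 := by omega
        subst hkk
        obtain ⟨E, hE1, hE2⟩ := hd0' d hdd0'
        refine ⟨E, hE1.trans (Real.rpow_le_rpow_of_exponent_le hd1 ?_), fun b hb => ?_⟩
        · linarith [min_le_right c c']
        · exact (hE2 b hb).trans (card_le_card (M_mono hz2 le_rfl b))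
      · obtain ⟨E, hE1, hE2⟩ := hd0 d hdd0 k hk2 hk
        refine ⟨E, hE1.trans (Real.rpow_le_rpow_of_exponent_le hd1 ?_), fun b hb => ?_⟩
        · linarith [min_le_left c c']
        · exact (hE2 b hb).trans (card_le_card (M_mono hz1 le_rfl b))
    · exact ⟨δ, c, hδ, hδ', hc, hc1, d0, fun d hd k hk2 hkK => absurd hk2 (by omega)⟩

end Pool.Agent.Lib.MP_42948a_nt.TB
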