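import Pool.Agent.Lib.MP_42948a_nt.TB.Defs
import Pool.Agent.Lib.MP_42948a_nt.OA.DV
import Pool.Agent.Lib.MP_42948a_nt.BM.N10

/-!
# Inequalities for large `d` (job N10)

Copy `large_d'` of `BM/N10.lean` and adapt. `z = ⌊d^δ⌋₊`, `x0 = ⌈d^(1/3+η)⌉₊`, `L = log d`, `K = 4 b0 + 6`, `δ K = η1/4`, `δ ≤ η1/40 ≤ η/40`. `d^δ/2 ≤ z ≤ d^δ`, `d^(1/3+η) ≤ x0 ≤ 2 d^(1/3+η)` for `d` large, so
`log z ≥ δ L - log 2 ≥ (3/4) δ L`, `log z ≤ δ L`, `(1/3) L ≤ log x0 ≤ (1/3 + η) L + log 2 ≤ (1/2) L` (`η ≤ 1/8`).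
(5) `δ log x0 ≤ δ L/2 ≤ log z`; (6) `log z ≤ δ L ≤ (η/40) L ≤ (η/4)(L/3) ≤ (η/4) log x0`. (7) For `x0 ≤ y ≤ x0^(1+η)`: `x0^(1+η) ≤ 4 d^((1/3+η)(1+η))`, `(1/3+η)(1+η) = 1/3 + (4/3) η + η^2 ≤ 1/3 + (35/24) η`, so
`y ≤ 4 d^(1/3 + (35/24) η) ≤ d^(1/3+2η)` for `d` large; `log y ≤ (1/3 + 2η) L ≤ (7/12) L ≤ log z/δ`; `log d/log z ≤ (4/3)/δ`, `log y/log z ≤ 1/δ`, `1/z → 0`.
The last item for `y`: `z^K ≤ d^(η1/4)`; `TD d ≤ d^(η/8)` (`divisor_bound`, `OA/DV.lean`) so `3 z^K 4 TD d/x0 ≤ 12 d^(η1/4 + η/8 - 1/3 - η) → 0`; `log y ≤ L`, `N + 2 ≤ 4 d^(η1/4)`, so the second part is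
`≤ 4 d^(η1/4) d^(η1/4) 2 (2 + L) d^(-κ') ≤ 8 (2 + L) d^(η1/2 - κ') → 0` because `η1/2 ≤ κ'/8`.
(8) `2 z^K ≤ 2 d^(η1/4) ≤ x0`. (9) `x0/z^K ≥ d^(1/3+η-η1/4)` (real division), the natural division loses at most `1`, and `d^(1/3 + 3η/4) - 1 ≥ d^(1/3 + η/2)` for `d` large (`1/4 + (1/12 + η/2) = 1/3 + η/2`).
(10), (11) clear (`1/3 + 2 η ≤ 7/12 < 1`).
-/

namespace Pool.Agent.Lib.MP_42948a_nt.TB

open Finset Pool.Agent.Lib.MP_42948a_nt.OA Pool.Agent.Lib.MP_42948a_nt.OM Pool.Agent.Lib.MP_42948a_nt.BM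

theorem large_d3 (η η1 δ κ' : ℝ) (b0 z0 d1 : ℕ) (hη : 0 < η) (hη1 : η ≤ 1 / 8) (h1 : 0 < η1) (h2 : η1 ≤ η)
    (h3 : η1 ≤ κ' / 4) (hδ : δ * (16 * b0 + 24) = η1) (e1 : ℝ) (he1 : 0 < e1) :
    ∃ d0 : ℕ, ∀ d : ℕ, d0 ≤ d → ∀ z x0 : ℕ, z = ⌊(d : ℝ) ^ δ⌋₊ → x0 = ⌈(d : ℝ) ^ (1 / 3 + η)⌉₊ →
      d1 ≤ d ∧ 2 ≤ d ∧ z0 ≤ z ∧ 2 ≤ z ∧
      δ * Real.log x0 ≤ Real.log z ∧ Real.log z ≤ η / 4 * Real.log x0 ∧
      (∀ y : ℕ, x0 ≤ y → (y : ℝ) ≤ (x0 : ℝ) ^ (1 + η) →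
        (y : ℝ) ≤ (d : ℝ) ^ (1 / 3 + 2 * η) ∧ δ * Real.log y ≤ Real.log z ∧
        Real.log d / Real.log z * (1 / z) * (Real.log y / Real.log z) ≤ e1 ∧
        ∀ N : ℝ, N ≤ 2 * (d : ℝ) ^ (2 * (η1 / 8)) →
          3 * ((z : ℝ) ^ (4 * b0 + 6) * (4 * TD d / x0)) +
            (N + 2) * ((z : ℝ) ^ (4 * b0 + 6) * (2 * (2 + Real.log y) * (d : ℝ) ^ (-κ'))) ≤ e1) ∧
      2 * z ^ (4 * b0 + 6) ≤ x0 ∧ (d : ℝ) ^ (1 / 4 + (1 / 12 + η / 2)) ≤ ((x0 / z ^ (4 * b0 + 6) : ℕ) : ℝ) ∧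
      d ≤ x0 ^ 3 ∧ (d : ℝ) ^ (1 / 3 + 2 * η) ≤ d := by
  have hb : (0 : ℝ) < 16 * b0 + 24 := by positivity
  have hδ0 : 0 < δ := by
    by_contra hcon
    rw [not_lt] at hcon
    have := mul_nonpos_of_nonpos_of_nonneg hcon hb.le
    linarith
  have hκ0 : 0 < κ' := by linarith
  have hδ24 : 24 * δ ≤ η := by
    have : 0 ≤ δ * (16 * b0) := by positivity
    nlinarith
  have hδ4 : δ * (4 * b0 + 6) = η1 / 4 := by
    rw [← hδ]
    ring
  obtain ⟨C, hC1, hC⟩ := divisor_bound (η / 8) (by positivity)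
  have hcast := tendsto_natCast_atTop_atTop (R := ℝ)
  have hev : ∀ᶠ d : ℕ in Filter.atTop, d1 ≤ d ∧ 16 ≤ d ∧ 2 * (z0 : ℝ) + 4 ≤ (d : ℝ) ^ δ ∧
      8 / (3 * δ ^ 2 * e1) ≤ (d : ℝ) ^ δ ∧ 4 * Real.log 2 ≤ δ * Real.log d ∧
      24 * C / e1 ≤ (d : ℝ) ^ ((1 : ℝ) / 4) ∧ 16 * (2 + 2 / κ') / e1 ≤ (d : ℝ) ^ (3 * κ' / 8) ∧
      2 ≤ (d : ℝ) ^ (η / 4) := by
    have t1 := (tendsto_rpow_atTop hδ0).comp hcast
    have t2 := (Real.tendsto_log_atTop.const_mul_atTop hδ0).comp hcast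
    have t3 := (tendsto_rpow_atTop (show (0 : ℝ) < 1 / 4 by norm_num)).comp hcast
    have t4 := (tendsto_rpow_atTop (show 0 < 3 * κ' / 8 by positivity)).comp hcast
    have t5 := (tendsto_rpow_atTop (show 0 < η / 4 by positivity)).comp hcast
    filter_upwards [Filter.eventually_ge_atTop d1, Filter.eventually_ge_atTop 16,
      t1.eventually_ge_atTop (2 * (z0 : ℝ) + 4),
      t1.eventually_ge_atTop (8 / (3 * δ ^ 2 * e1)), t2.eventually_ge_atTop (4 * Real.log 2),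
      t3.eventually_ge_atTop (24 * C / e1), t4.eventually_ge_atTop (16 * (2 + 2 / κ') / e1),
      t5.eventually_ge_atTop 2] with d a b c e f g h i
    exact ⟨a, b, c, e, f, g, h, i⟩
  obtain ⟨d0, hd0⟩ := Filter.eventually_atTop.1 hev
  refine ⟨d0, fun d hd z x0 hz hx0 => ?_⟩
  obtain ⟨g1, g2, g4, g5, g6, g7, g8, g9⟩ := hd0 d hd
  have hD16 : (16 : ℝ) ≤ d := by exact_mod_cast g2
  have hD1 : (1 : ℝ) ≤ d := by linarith
  have hD0 : (0 : ℝ) < d := by linarith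
  set L : ℝ := Real.log d with hL
  have hlog2 : 0 < Real.log 2 := Real.log_pos (by norm_num)
  have hL0 : 0 < L := Real.log_pos (by linarith)
  -- `z`
  set Z : ℝ := (d : ℝ) ^ δ with hZ
  have hZ0 : 0 < Z := Real.rpow_pos_of_pos hD0 _
  have hz0' : (0 : ℝ) ≤ z0 := Nat.cast_nonneg _
  have hzZ : (z : ℝ) ≤ Z := by
    rw [hz]
    exact Nat.floor_le hZ0.le
  have hZz : Z < z + 1 := by
    rw [hz]
    exact Nat.lt_floor_add_one Z
  have hZ2 : Z / 2 ≤ z := by linarith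
  have hzpos : (0 : ℝ) < z := by linarith
  have hlogZ : Real.log Z = δ * L := by rw [hZ, Real.log_rpow hD0]
  have hlz1 : 3 / 4 * (δ * L) ≤ Real.log z := by
    have e2 : Real.log (Z / 2) ≤ Real.log z := Real.log_le_log (by positivity) hZ2
    rw [Real.log_div hZ0.ne' (by norm_num), hlogZ] at e2
    linarith
  have hlz2 : Real.log z ≤ δ * L := by
    rw [← hlogZ]
    exact Real.log_le_log hzpos hzZ
  have hδL : 0 < δ * L := mul_pos hδ0 hL0
  have hlz0 : 0 < Real.log z := by linarith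
  -- `x0`
  set X : ℝ := (d : ℝ) ^ (1 / 3 + η) with hX
  have hX0 : 0 < X := Real.rpow_pos_of_pos hD0 _
  have hX1 : 1 ≤ X := Real.one_le_rpow hD1 (by linarith)
  have hXx : X ≤ x0 := by
    rw [hx0]
    exact Nat.le_ceil X
  have hxX : (x0 : ℝ) ≤ 2 * X := by
    have := Nat.ceil_lt_add_one hX0.le
    rw [← hx0] at this
    linarith
  have hx00 : (0 : ℝ) < x0 := by linarith
  have hlogX : Real.log X = (1 / 3 + η) * L := by rw [hX, Real.log_rpow hD0]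
  have hlx1 : (1 / 3 + η) * L ≤ Real.log x0 := by
    rw [← hlogX]
    exact Real.log_le_log hX0 hXx
  have hlx2 : Real.log x0 ≤ (1 / 3 + η) * L + Real.log 2 := by
    have e2 : Real.log x0 ≤ Real.log (2 * X) := Real.log_le_log hx00 hxX
    rw [Real.log_mul (by norm_num) hX0.ne', hlogX] at e2
    linarith
  have hηL : 0 < η * L := mul_pos hη hL0
  have hδηL : 24 * (δ * L) ≤ η * L := by
    rw [← mul_assoc]
    exact mul_le_mul_of_nonneg_right hδ24 hL0.le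
  have hη8L : η * L ≤ 1 / 8 * L := mul_le_mul_of_nonneg_right hη1 hL0.le
  have hz2 : z0 + 2 ≤ z := by
    have : (z0 : ℝ) + 2 ≤ z := by linarith
    exact_mod_cast this
  have hzpow1 : (z : ℝ) ^ (4 * b0 + 6) ≤ (d : ℝ) ^ (η1 / 4) := by
    calc (z : ℝ) ^ (4 * b0 + 6) ≤ Z ^ (4 * b0 + 6) := by gcongr
      _ = (d : ℝ) ^ (η1 / 4) := by
          rw [hZ, ← Real.rpow_natCast, ← Real.rpow_mul hD0.le]
          congr 1
          push_cast
          exact hδ4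
  have hzpow : (z : ℝ) ^ (4 * b0 + 6) ≤ (d : ℝ) ^ (η / 4) :=
    hzpow1.trans (Real.rpow_le_rpow_of_exponent_le hD1 (by linarith))
  have hzK : (0 : ℝ) < (z : ℝ) ^ (4 * b0 + 6) := by positivity
  refine ⟨g1, by omega, by omega, by omega, ?_, ?_, ?_, ?_, ?_, ?_, ?_⟩
  · -- `δ log x0 ≤ log z`
    have e1' : Real.log x0 ≤ 3 / 4 * L := by
      have e2 : (1 / 3 + η) * L = 1 / 3 * L + η * L := by ring
      rw [e2] at hlx2
      linarith
    calc δ * Real.log x0 ≤ δ * (3 / 4 * L) := mul_le_mul_of_nonneg_left e1' hδ0.le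
      _ = 3 / 4 * (δ * L) := by ring
      _ ≤ Real.log z := hlz1
  · have e2 : η / 4 * ((1 / 3 + η) * L) ≤ η / 4 * Real.log x0 :=
      mul_le_mul_of_nonneg_left hlx1 (by positivity)
    have e3 : 0 ≤ η * (η * L) := by positivity
    have e4 : η / 4 * ((1 / 3 + η) * L) = 1 / 12 * (η * L) + 1 / 4 * (η * (η * L)) := by ring
    rw [e4] at e2
    linarith
  · intro y hy1 hy2
    have hy1r : (x0 : ℝ) ≤ y := by exact_mod_cast hy1
    have hy0 : (0 : ℝ) < y := by linarith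
    have hly : Real.log y ≤ (1 + η) * Real.log x0 := by
      rw [← Real.log_rpow hx00]
      exact Real.log_le_log hy0 hy2
    have hly2 : Real.log y ≤ (1 / 3 + 2 * η) * L := by
      have e2 : (1 + η) * Real.log x0 ≤ (1 + η) * ((1 / 3 + η) * L + Real.log 2) :=
        mul_le_mul_of_nonneg_left hlx2 (by linarith)
      have e3 : η * (η * L) ≤ 1 / 8 * (η * L) := mul_le_mul_of_nonneg_right hη1 hηL.le
      have e4 : η * Real.log 2 ≤ 1 / 8 * Real.log 2 := mul_le_mul_of_nonneg_right hη1 hlog2.le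
      have e5 : (1 + η) * ((1 / 3 + η) * L + Real.log 2) =
          1 / 3 * L + 4 / 3 * (η * L) + η * (η * L) + Real.log 2 + η * Real.log 2 := by ring
      have e6 : (1 / 3 + 2 * η) * L = 1 / 3 * L + 2 * (η * L) := by ring
      rw [e5] at e2
      rw [e6]
      linarith
    have hly3 : Real.log y ≤ 3 / 4 * L := by
      have e6 : (1 / 3 + 2 * η) * L = 1 / 3 * L + 2 * (η * L) := by ring
      rw [e6] at hly2
      linarith
    have hyd : δ * Real.log y ≤ Real.log z := by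
      calc δ * Real.log y ≤ δ * (3 / 4 * L) := mul_le_mul_of_nonneg_left hly3 hδ0.le
        _ = 3 / 4 * (δ * L) := by ring
        _ ≤ Real.log z := hlz1
    have hly0 : 0 ≤ Real.log y := Real.log_nonneg (by linarith)
    refine ⟨?_, hyd, ?_, ?_⟩
    · rw [← Real.log_le_log_iff hy0 (Real.rpow_pos_of_pos hD0 _), Real.log_rpow hD0]
      exact hly2
    · have e2 : L / Real.log z ≤ 4 / (3 * δ) := by
        rw [div_le_div_iff₀ hlz0 (by positivity)]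
        nlinarith
      have e3 : Real.log y / Real.log z ≤ 1 / δ := by
        rw [div_le_div_iff₀ hlz0 hδ0]
        linarith
      have e4 : (1 : ℝ) / z ≤ 2 / Z := by
        rw [div_le_div_iff₀ hzpos hZ0]
        linarith
      calc L / Real.log z * (1 / z) * (Real.log y / Real.log z)
          ≤ 4 / (3 * δ) * (2 / Z) * (1 / δ) := by gcongr
        _ = 8 / (3 * δ ^ 2 * e1) / Z * e1 := by
            field_simp
            norm_num
        _ ≤ 1 * e1 := by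
            refine mul_le_mul_of_nonneg_right ?_ he1.le
            rw [div_le_one hZ0]
            exact g5
        _ = e1 := one_mul _
    · intro N hN
      have hTD : TD d ≤ C * (d : ℝ) ^ (η / 8) := by
        unfold TD
        exact hC d (by omega)
      have hTD0 : 0 ≤ TD d := by
        unfold TD
        positivity
      -- the first part
      have f1 : 3 * ((z : ℝ) ^ (4 * b0 + 6) * (4 * TD d / x0)) ≤ e1 / 2 := by
        have q1 : 4 * TD d / x0 ≤ 4 * (C * (d : ℝ) ^ (η / 8)) / X := by gcongr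
        have q2 : 0 ≤ 4 * TD d / x0 := by positivity
        calc 3 * ((z : ℝ) ^ (4 * b0 + 6) * (4 * TD d / x0))
            ≤ 3 * ((d : ℝ) ^ (η / 4) * (4 * (C * (d : ℝ) ^ (η / 8)) / X)) := by gcongr
          _ = 12 * C * ((d : ℝ) ^ (η / 4) * (d : ℝ) ^ (η / 8)) / X := by ring
          _ = 12 * C * (d : ℝ) ^ (3 * η / 8) / X := by
              rw [← Real.rpow_add hD0]
              congr 3
              ring
          _ = 12 * C / (d : ℝ) ^ (1 / 3 + 5 * η / 8) := by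
              have q3 : X = (d : ℝ) ^ (3 * η / 8) * (d : ℝ) ^ (1 / 3 + 5 * η / 8) := by
                rw [hX, ← Real.rpow_add hD0]
                congr 1
                ring
              have q4 : (d : ℝ) ^ (3 * η / 8) ≠ 0 := (Real.rpow_pos_of_pos hD0 _).ne'
              rw [q3, mul_comm (12 * C), mul_div_mul_left _ _ q4]
          _ ≤ 12 * C / (d : ℝ) ^ ((1 : ℝ) / 4) := by
              have q5 : (d : ℝ) ^ ((1 : ℝ) / 4) ≤ (d : ℝ) ^ (1 / 3 + 5 * η / 8) :=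
                Real.rpow_le_rpow_of_exponent_le hD1 (by linarith)
              have q6 : 0 < (d : ℝ) ^ ((1 : ℝ) / 4) := Real.rpow_pos_of_pos hD0 _
              gcongr
          _ ≤ e1 / 2 := by
              have q6 : 0 < (d : ℝ) ^ ((1 : ℝ) / 4) := Real.rpow_pos_of_pos hD0 _
              rw [div_le_iff₀ q6]
              rw [div_le_iff₀ he1] at g7
              linarith
      -- the second part
      have f2 : (N + 2) * ((z : ℝ) ^ (4 * b0 + 6) * (2 * (2 + Real.log y) * (d : ℝ) ^ (-κ'))) ≤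
          e1 / 2 := by
        have q0 : (1 : ℝ) ≤ (d : ℝ) ^ (η1 / 4) := Real.one_le_rpow hD1 (by positivity)
        have q1 : N + 2 ≤ 4 * (d : ℝ) ^ (η1 / 4) := by
          have e0 : 2 * (η1 / 8) = η1 / 4 := by ring
          rw [e0] at hN
          linarith
        have q2 : 2 + Real.log y ≤ (2 + 2 / κ') * (d : ℝ) ^ (κ' / 2) := by
          have r1 : L ≤ (d : ℝ) ^ (κ' / 2) / (κ' / 2) := Real.log_le_rpow_div hD0.le (by positivity)
          have r2 : (1 : ℝ) ≤ (d : ℝ) ^ (κ' / 2) := Real.one_le_rpow hD1 (by positivity)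
          have r3 : (d : ℝ) ^ (κ' / 2) / (κ' / 2) = 2 / κ' * (d : ℝ) ^ (κ' / 2) := by
            field_simp
          rw [r3] at r1
          linarith
        have q3 : 0 < (d : ℝ) ^ (-κ') := Real.rpow_pos_of_pos hD0 _
        calc (N + 2) * ((z : ℝ) ^ (4 * b0 + 6) * (2 * (2 + Real.log y) * (d : ℝ) ^ (-κ')))
            ≤ (4 * (d : ℝ) ^ (η1 / 4)) *
              ((z : ℝ) ^ (4 * b0 + 6) * (2 * (2 + Real.log y) * (d : ℝ) ^ (-κ'))) :=
              mul_le_mul_of_nonneg_right q1 (by positivity)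
          _ ≤ (4 * (d : ℝ) ^ (η1 / 4)) *
              ((d : ℝ) ^ (η1 / 4) * (2 * ((2 + 2 / κ') * (d : ℝ) ^ (κ' / 2)) * (d : ℝ) ^ (-κ'))) := by
              gcongr
          _ = 8 * (2 + 2 / κ') *
              ((d : ℝ) ^ (η1 / 4) * (d : ℝ) ^ (η1 / 4) * (d : ℝ) ^ (κ' / 2) * (d : ℝ) ^ (-κ')) := by
              ring
          _ = 8 * (2 + 2 / κ') * (d : ℝ) ^ (η1 / 4 + η1 / 4 + κ' / 2 + -κ') := by
              rw [← Real.rpow_add hD0, ← Real.rpow_add hD0, ← Real.rpow_add hD0]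
          _ ≤ 8 * (2 + 2 / κ') * (d : ℝ) ^ (-(3 * κ' / 8)) := by
              have r4 : (d : ℝ) ^ (η1 / 4 + η1 / 4 + κ' / 2 + -κ') ≤ (d : ℝ) ^ (-(3 * κ' / 8)) :=
                Real.rpow_le_rpow_of_exponent_le hD1 (by linarith)
              exact mul_le_mul_of_nonneg_left r4 (by positivity)
          _ = 8 * (2 + 2 / κ') / (d : ℝ) ^ (3 * κ' / 8) := by
              rw [Real.rpow_neg hD0.le]
              exact (div_eq_mul_inv _ _).symm
          _ ≤ e1 / 2 := by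
              have q6 : 0 < (d : ℝ) ^ (3 * κ' / 8) := Real.rpow_pos_of_pos hD0 _
              rw [div_le_iff₀ q6]
              rw [div_le_iff₀ he1] at g8
              linarith
      linarith
  · have e2 : (2 : ℝ) * (z : ℝ) ^ (4 * b0 + 6) ≤ x0 := by
      have e3 : (2 : ℝ) ≤ (d : ℝ) ^ ((1 : ℝ) / 3 + 3 * η / 4) := by
        have e4 : (16 : ℝ) ^ ((1 : ℝ) / 4) = 2 := by
          rw [show (16 : ℝ) = 2 ^ (4 : ℕ) by norm_num, ← Real.rpow_natCast,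
            ← Real.rpow_mul (by norm_num)]
          norm_num
        calc (2 : ℝ) = (16 : ℝ) ^ ((1 : ℝ) / 4) := e4.symm
          _ ≤ (d : ℝ) ^ ((1 : ℝ) / 4) := Real.rpow_le_rpow (by norm_num) hD16 (by norm_num)
          _ ≤ (d : ℝ) ^ ((1 : ℝ) / 3 + 3 * η / 4) :=
              Real.rpow_le_rpow_of_exponent_le hD1 (by linarith)
      calc (2 : ℝ) * (z : ℝ) ^ (4 * b0 + 6)
          ≤ (d : ℝ) ^ ((1 : ℝ) / 3 + 3 * η / 4) * (d : ℝ) ^ (η / 4) := by gcongr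
        _ = X := by
            rw [← Real.rpow_add hD0, hX]
            congr 1
            ring
        _ ≤ x0 := hXx
    exact_mod_cast e2
  · -- the quotient
    rw [show (1 : ℝ) / 4 + (1 / 12 + η / 2) = 1 / 3 + η / 2 by ring]
    set q : ℕ := x0 / z ^ (4 * b0 + 6) with hq
    have hzKn : 0 < z ^ (4 * b0 + 6) := by
      have : 0 < z := by omega
      positivity
    have r1 : x0 < z ^ (4 * b0 + 6) * (q + 1) := Nat.lt_mul_div_succ x0 hzKn
    have r2 : (x0 : ℝ) < (z : ℝ) ^ (4 * b0 + 6) * ((q : ℝ) + 1) := by exact_mod_cast r1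
    have r3 : X = (d : ℝ) ^ (η / 4) * ((d : ℝ) ^ (η / 4) * (d : ℝ) ^ (1 / 3 + η / 2)) := by
      rw [← Real.rpow_add hD0, ← Real.rpow_add hD0, hX]
      congr 1
      ring
    have r4 : 0 < (d : ℝ) ^ (η / 4) := Real.rpow_pos_of_pos hD0 _
    have r5 : (1 : ℝ) ≤ (d : ℝ) ^ (1 / 3 + η / 2) := Real.one_le_rpow hD1 (by positivity)
    have r6 : (z : ℝ) ^ (4 * b0 + 6) * ((q : ℝ) + 1) ≤ (d : ℝ) ^ (η / 4) * ((q : ℝ) + 1) :=
      mul_le_mul_of_nonneg_right hzpow (by positivity)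
    have r7 : (d : ℝ) ^ (η / 4) * ((d : ℝ) ^ (η / 4) * (d : ℝ) ^ (1 / 3 + η / 2)) <
        (d : ℝ) ^ (η / 4) * ((q : ℝ) + 1) := by
      rw [← r3]
      linarith
    have r8 : (d : ℝ) ^ (η / 4) * (d : ℝ) ^ (1 / 3 + η / 2) < (q : ℝ) + 1 :=
      lt_of_mul_lt_mul_left r7 r4.le
    have r9 : 2 * (d : ℝ) ^ (1 / 3 + η / 2) ≤ (d : ℝ) ^ (η / 4) * (d : ℝ) ^ (1 / 3 + η / 2) :=
      mul_le_mul_of_nonneg_right g9 (by linarith)
    linarith
  · have e2 : (d : ℝ) ≤ (x0 : ℝ) ^ 3 := by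
      have e3 : (d : ℝ) ^ ((1 : ℝ) / 3) ≤ x0 :=
        (Real.rpow_le_rpow_of_exponent_le hD1 (by linarith)).trans hXx
      calc (d : ℝ) = ((d : ℝ) ^ ((1 : ℝ) / 3)) ^ 3 := by
            rw [← Real.rpow_natCast, ← Real.rpow_mul hD0.le]
            norm_num
        _ ≤ (x0 : ℝ) ^ 3 := by gcongr
    exact_mod_cast e2
  · calc (d : ℝ) ^ (1 / 3 + 2 * η) ≤ (d : ℝ) ^ (1 : ℝ) :=
          Real.rpow_le_rpow_of_exponent_le hD1 (by linarith)
      _ = d := Real.rpow_one _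

end Pool.Agent.Lib.MP_42948a_nt.TB
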