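import Pool.Agent.Lib.MP_42948a_nt.TB.Defs
import Pool.Agent.Lib.MP_42948a_nt.OM.G1

/-!
# Products of three numbers in one class (job N9)

Copy `quad_class` of `BM/N9.lean` for triples. For `x` in the sum put `M = n1 n2 n3`: `M ≥ d` (`M^3 ≥ d^3`), `M ≤ d^3`, and a given `M` arises from at most `τ(M)^2` triples (`n1, n2` divide `M` and determine `n3`),
`τ(M) ≤ C M^(κ/12) ≤ C d^(κ/4)` (`divisor_bound` of `OA/DV.lean` with exponent `κ/12`), `τ(M)^2 ≤ C^2 d^(κ/2)`. So the sum is `≤ C^2 d^(κ/2) ∑_M 1/M` over the `M ≡ b`, `d ≤ M ≤ d^3`, `≤ C^2 d^(κ/2) (1 + 3 log d)/d`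
(`G1_sum_inv`) `≤ d^(κ-1)` for large `d` (`G1_large`).
-/

namespace Pool.Agent.Lib.MP_42948a_nt.TB

open Finset Pool.Agent.Lib.MP_42948a_nt.OA Pool.Agent.Lib.MP_42948a_nt.OM Pool.Agent.Lib.MP_42948a_nt.BM

private theorem TBN9_card_fiber (S : Finset ((ℕ × ℕ) × ℕ))
    (hS : ∀ x ∈ S, 0 < x.1.1 ∧ 0 < x.1.2 ∧ 0 < x.2) (M : ℕ) :
    (S.filter (fun x => x.1.1 * x.1.2 * x.2 = M)).card ≤ M.divisors.card ^ 2 := by
  have h0 : M.divisors.card ^ 2 = (M.divisors ×ˢ M.divisors).card := by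
    rw [card_product]
    ring
  rw [h0]
  refine Finset.card_le_card_of_injOn (fun x => x.1) ?_ ?_
  · intro x hx
    obtain ⟨hxS, hxM⟩ := Finset.mem_filter.1 (Finset.mem_coe.1 hx)
    obtain ⟨h1, h2, h3⟩ := hS x hxS
    have hM : M ≠ 0 := by
      rw [← hxM]
      positivity
    refine Finset.mem_coe.2 (Finset.mem_product.2 ⟨?_, ?_⟩)
    · exact Nat.mem_divisors.2 ⟨⟨x.1.2 * x.2, by rw [← hxM]; ring⟩, hM⟩
    · exact Nat.mem_divisors.2 ⟨⟨x.1.1 * x.2, by rw [← hxM]; ring⟩, hM⟩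
  · intro x hx y hy hxy
    obtain ⟨hxS, hxM⟩ := Finset.mem_filter.1 (Finset.mem_coe.1 hx)
    obtain ⟨hyS, hyM⟩ := Finset.mem_filter.1 (Finset.mem_coe.1 hy)
    obtain ⟨h1, h2, h3⟩ := hS x hxS
    have e1 : x.1 = y.1 := hxy
    rw [← e1, ← hxM] at hyM
    have h5 := Nat.eq_of_mul_eq_mul_left (Nat.mul_pos h1 h2) hyM
    exact Prod.ext e1 h5.symm

theorem triple_class (κ : ℝ) (hκ : 0 < κ) : ∃ d0 : ℕ, ∀ d : ℕ, d0 ≤ d → ∀ N : Finset ℕ,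
    (∀ n ∈ N, 0 < n ∧ d ≤ n ^ 3 ∧ n ≤ d) → ∀ b : (ZMod d)ˣ,
      ∑ x ∈ ((N ×ˢ N) ×ˢ N).filter
          (fun x => ((x.1.1 * x.1.2 * x.2 : ℕ) : ZMod d) = (b : ZMod d)),
        (1 : ℝ) / ((x.1.1 : ℝ) * x.1.2 * (x.2 : ℝ)) ≤ (d : ℝ) ^ (κ - 1) := by
  obtain ⟨C, hC, hdiv⟩ := divisor_bound (κ / 16) (by positivity)
  have hC3 : 1 ≤ C ^ 2 := one_le_pow₀ hC
  obtain ⟨d0, hd0, hlarge⟩ := G1_large κ hκ (C ^ 2) hC3
  refine ⟨d0, fun d hd N hN b => ?_⟩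
  have hd1 : 0 < d := by omega
  have hdR : (0 : ℝ) < d := by exact_mod_cast hd1
  have hL := hlarge d hd
  set S : Finset ((ℕ × ℕ) × ℕ) := ((N ×ˢ N) ×ˢ N).filter
    (fun x => ((x.1.1 * x.1.2 * x.2 : ℕ) : ZMod d) = (b : ZMod d)) with hS
  have hmem : ∀ x ∈ S, (0 < x.1.1 ∧ 0 < x.1.2 ∧ 0 < x.2) ∧
      d ≤ x.1.1 * x.1.2 * x.2 ∧ x.1.1 * x.1.2 * x.2 ≤ d ^ 4 ∧
      ((x.1.1 * x.1.2 * x.2 : ℕ) : ZMod d) = (b : ZMod d) := by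
    intro x hx
    obtain ⟨h1, h2⟩ := Finset.mem_filter.1 hx
    obtain ⟨h3, h4⟩ := Finset.mem_product.1 h1
    obtain ⟨h3a, h3b⟩ := Finset.mem_product.1 h3
    obtain ⟨a1, a2, a3⟩ := hN x.1.1 h3a
    obtain ⟨b1, b2, b3⟩ := hN x.1.2 h3b
    obtain ⟨c1, c2, c3⟩ := hN x.2 h4
    refine ⟨⟨a1, b1, c1⟩, ?_, ?_, h2⟩
    · have h11 : d ^ 3 ≤ (x.1.1 * x.1.2 * x.2) ^ 3 := by
        calc d ^ 3 = d * d * d := by ring
          _ ≤ x.1.1 ^ 3 * x.1.2 ^ 3 * x.2 ^ 3 :=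
            Nat.mul_le_mul (Nat.mul_le_mul a2 b2) c2
          _ = (x.1.1 * x.1.2 * x.2) ^ 3 := by ring
      exact (Nat.pow_le_pow_iff_left (by norm_num)).1 h11
    · calc x.1.1 * x.1.2 * x.2 ≤ d * d * d :=
            Nat.mul_le_mul (Nat.mul_le_mul a3 b3) c3
        _ = d ^ 3 := by ring
        _ ≤ d ^ 4 := Nat.pow_le_pow_right hd1 (by norm_num)
  set T : Finset ℕ := S.image (fun x => x.1.1 * x.1.2 * x.2) with hT
  have hTmem : ∀ M ∈ T, d ≤ M ∧ M ≤ d ^ 4 ∧ (M : ZMod d) = (b : ZMod d) := by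
    intro M hM
    obtain ⟨x, hx, rfl⟩ := Finset.mem_image.1 hM
    exact (hmem x hx).2
  have hmaps : ∀ x ∈ S, x.1.1 * x.1.2 * x.2 ∈ T := fun x hx =>
    Finset.mem_image_of_mem (fun x : (ℕ × ℕ) × ℕ => x.1.1 * x.1.2 * x.2) hx
  have hfib : ∑ x ∈ S, (1 : ℝ) / ((x.1.1 : ℝ) * x.1.2 * (x.2 : ℝ)) ≤
      ∑ M ∈ T, (C ^ 2 * (d : ℝ) ^ (κ / 2)) * ((1 : ℝ) / M) := by
    rw [← Finset.sum_fiberwise_of_maps_to hmaps]
    refine Finset.sum_le_sum fun M hM => ?_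
    obtain ⟨h1, h2, -⟩ := hTmem M hM
    have hM0 : 0 < M := by omega
    have h3 : ∑ x ∈ S.filter (fun x => x.1.1 * x.1.2 * x.2 = M),
        (1 : ℝ) / ((x.1.1 : ℝ) * x.1.2 * (x.2 : ℝ)) =
        ((S.filter (fun x => x.1.1 * x.1.2 * x.2 = M)).card : ℝ) * ((1 : ℝ) / M) := by
      rw [Finset.sum_congr rfl (g := fun _ => (1 : ℝ) / M) (fun x hx => by
        rw [← (Finset.mem_filter.1 hx).2]; push_cast; rfl), Finset.sum_const, nsmul_eq_mul]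
    rw [h3]
    refine mul_le_mul_of_nonneg_right ?_ (by positivity)
    have h4 := TBN9_card_fiber S (fun x hx => (hmem x hx).1) M
    have h5 : ((S.filter (fun x => x.1.1 * x.1.2 * x.2 = M)).card : ℝ) ≤
        (M.divisors.card : ℝ) ^ 2 := by exact_mod_cast h4
    have h6 : (M : ℝ) ≤ (d : ℝ) ^ (4 : ℝ) := by
      have h7 : (M : ℝ) ≤ (d : ℝ) ^ 4 := by exact_mod_cast h2
      refine h7.trans (le_of_eq ?_)
      rw [← Real.rpow_natCast]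
      norm_num
    have h8 : (M.divisors.card : ℝ) ≤ C * (d : ℝ) ^ (κ / 4) := by
      refine (hdiv M hM0).trans (mul_le_mul_of_nonneg_left ?_ (by linarith))
      refine (Real.rpow_le_rpow (Nat.cast_nonneg M) h6 (by positivity)).trans (le_of_eq ?_)
      rw [← Real.rpow_mul hdR.le]
      congr 1; ring
    refine h5.trans ((pow_le_pow_left₀ (Nat.cast_nonneg _) h8 2).trans (le_of_eq ?_))
    rw [mul_pow, ← Real.rpow_natCast ((d : ℝ) ^ (κ / 4)) 2, ← Real.rpow_mul hdR.le]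
    congr 2
    push_cast
    ring
  have hsum := G1_sum_inv d hd1 (b : ZMod d) T hTmem
  have hC0 : (0 : ℝ) ≤ C ^ 2 * (d : ℝ) ^ (κ / 2) := mul_nonneg (by linarith) (Real.rpow_pos_of_pos hdR _).le
  calc ∑ x ∈ S, (1 : ℝ) / ((x.1.1 : ℝ) * x.1.2 * (x.2 : ℝ))
      ≤ ∑ M ∈ T, (C ^ 2 * (d : ℝ) ^ (κ / 2)) * ((1 : ℝ) / M) := hfib
    _ = (C ^ 2 * (d : ℝ) ^ (κ / 2)) * ∑ M ∈ T, (1 : ℝ) / M := by rw [← Finset.mul_sum]
    _ ≤ (C ^ 2 * (d : ℝ) ^ (κ / 2)) * ((1 + 3 * Real.log d) / d) := mul_le_mul_of_nonneg_left hsum hC0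
    _ = (C ^ 2 * (d : ℝ) ^ (κ / 2) * (1 + 3 * Real.log d)) / d := by ring
    _ ≤ (d : ℝ) ^ κ / d := div_le_div_of_nonneg_right hL hdR.le
    _ = (d : ℝ) ^ (κ - 1) := by rw [Real.rpow_sub_one hdR.ne']

end Pool.Agent.Lib.MP_42948a_nt.TB
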