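import Pool.Agent.Lib.MP_42948a_nt.TB.Defs
import Pool.Agent.Lib.MP_42948a_nt.OM.G2

/-!
# The sixth moment (job N9b)

Copy `eighth_moment` of `BM/N9b.lean` for triples: `ac N v χ ^ 3 = ∑_{x ∈ (N ×ˢ N) ×ˢ N} (v/n)(v/n)(v/n) χ(n1 n2 n3)` (`G2_sq` of `OM/G2.lean`, `Finset.sum_mul_sum`, `Finset.sum_product`), so by `parseval_class` (`OM/A1.lean`; `n1 n2 n3` is
coprime to `d`) `∑ χ, ‖ac N v χ‖^6 = φ(d) ∑ b, ‖cw b‖^2`, `‖cw b‖ ≤ r b := ∑_{x : n1 n2 n3 ≡ b} 1/(n1 n2 n3) ≤ R`, and `∑ b, r b = (WW N)^3`. So the moment is `≤ φ(d) R (WW N)^3`.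
-/

namespace Pool.Agent.Lib.MP_42948a_nt.TB

open Finset Pool.Agent.Lib.MP_42948a_nt.OA Pool.Agent.Lib.MP_42948a_nt.OM Pool.Agent.Lib.MP_42948a_nt.BM

private theorem TBN9b_trip (d : ℕ) (N : Finset ℕ) (v : ℕ → ℂ) (χ : DirichletCharacter ℂ d) :
    ac N v χ ^ 3 = ∑ x ∈ (N ×ˢ N) ×ˢ N,
      ((v x.1.1 / (x.1.1 : ℂ) * (v x.1.2 / (x.1.2 : ℂ))) * (v x.2 / (x.2 : ℂ))) *
      χ ((x.1.1 * x.1.2 * x.2 : ℕ) : ZMod d) := by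
  have e : ac N v χ ^ 3 = ac N v χ ^ 2 * ac N v χ := by ring
  have e1 : ac N v χ = ∑ n ∈ N, v n / (n : ℂ) * χ (n : ZMod d) := rfl
  rw [e, G2_sq, e1, Finset.sum_mul_sum, ← Finset.sum_product']
  refine Finset.sum_congr rfl (fun x _ => ?_)
  rw [Nat.cast_mul (x.1.1 * x.1.2) x.2, map_mul]
  ring

private theorem TBN9b_WW (N : Finset ℕ) :
    ∑ x ∈ (N ×ˢ N) ×ˢ N, (1 : ℝ) / ((x.1.1 : ℝ) * x.1.2 * (x.2 : ℝ)) = WW N ^ 3 := by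
  have e : WW N ^ 3 = WW N ^ 2 * WW N := by ring
  have e1 : WW N = ∑ n ∈ N, (1 : ℝ) / (n : ℝ) := rfl
  rw [e, ← G2_WW, e1, Finset.sum_mul_sum, ← Finset.sum_product']
  refine Finset.sum_congr rfl (fun x _ => ?_)
  rw [div_mul_div_comm, one_mul]

theorem sixth_moment (d : ℕ) [NeZero d] (N : Finset ℕ) (hN : ∀ n ∈ N, n.Coprime d) (R : ℝ)
    (hR : ∀ b : (ZMod d)ˣ, ∑ x ∈ ((N ×ˢ N) ×ˢ N).filter
        (fun x => ((x.1.1 * x.1.2 * x.2 : ℕ) : ZMod d) = (b : ZMod d)),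
      (1 : ℝ) / ((x.1.1 : ℝ) * x.1.2 * (x.2 : ℝ)) ≤ R) (v : ℕ → ℂ) (hv : ∀ n, ‖v n‖ ≤ 1) :
    ∑ χ : DirichletCharacter ℂ d, ‖ac N v χ‖ ^ 6 ≤ (d.totient : ℝ) * R * WW N ^ 3 := by
  classical
  have hX : ∀ x ∈ (N ×ˢ N) ×ˢ N, IsUnit (((x.1.1 * x.1.2 * x.2 : ℕ) : ZMod d)) := by
    intro x hx
    rw [Finset.mem_product, Finset.mem_product] at hx
    rw [ZMod.isUnit_iff_coprime]
    exact Nat.Coprime.mul_left (Nat.Coprime.mul_left (hN _ hx.1.1) (hN _ hx.1.2)) (hN _ hx.2)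
  have h1 : ∑ χ : DirichletCharacter ℂ d, ‖ac N v χ‖ ^ 6 =
      ∑ χ : DirichletCharacter ℂ d, ‖∑ x ∈ (N ×ˢ N) ×ˢ N,
        ((v x.1.1 / (x.1.1 : ℂ) * (v x.1.2 / (x.1.2 : ℂ))) * (v x.2 / (x.2 : ℂ))) *
        χ ((x.1.1 * x.1.2 * x.2 : ℕ) : ZMod d)‖ ^ 2 := by
    refine Finset.sum_congr rfl (fun χ _ => ?_)
    rw [← TBN9b_trip, norm_pow, ← pow_mul]
  rw [h1, parseval_class d ((N ×ˢ N) ×ˢ N)
    (fun x => ((x.1.1 * x.1.2 * x.2 : ℕ) : ZMod d))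
    (fun x => (v x.1.1 / (x.1.1 : ℂ) * (v x.1.2 / (x.1.2 : ℂ))) * (v x.2 / (x.2 : ℂ))) hX, mul_assoc]
  refine mul_le_mul_of_nonneg_left ?_ (Nat.cast_nonneg _)
  rw [← TBN9b_WW, ← G2_fiber d ((N ×ˢ N) ×ˢ N)
    (fun x => ((x.1.1 * x.1.2 * x.2 : ℕ) : ZMod d)) _ hX, Finset.mul_sum]
  refine Finset.sum_le_sum (fun b _ => ?_)
  have hc1 : ∀ a : ℕ, ‖v a / (a : ℂ)‖ ≤ (1 : ℝ) / (a : ℝ) := by
    intro a
    rw [norm_div, Complex.norm_natCast]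
    exact div_le_div_of_nonneg_right (hv _) (Nat.cast_nonneg _)
  have hc2 : ∀ a b : ℕ, ‖v a / (a : ℂ) * (v b / (b : ℂ))‖ ≤ (1 : ℝ) / ((a : ℝ) * b) := by
    intro a b
    rw [norm_mul, norm_div, norm_div, Complex.norm_natCast, Complex.norm_natCast,
      div_mul_div_comm]
    refine div_le_div_of_nonneg_right ?_ (by positivity)
    exact mul_le_one₀ (hv _) (norm_nonneg _) (hv _)
  have hc : ∀ x : (ℕ × ℕ) × ℕ, ‖(v x.1.1 / (x.1.1 : ℂ) * (v x.1.2 / (x.1.2 : ℂ))) *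
      (v x.2 / (x.2 : ℂ))‖ ≤
      (1 : ℝ) / ((x.1.1 : ℝ) * x.1.2 * (x.2 : ℝ)) := by
    intro x
    rw [norm_mul]
    refine (mul_le_mul (hc2 _ _) (hc1 _) (norm_nonneg _) (by positivity)).trans (le_of_eq ?_)
    rw [div_mul_div_comm, one_mul]
  have h2 : ‖cw ((N ×ˢ N) ×ˢ N)
      (fun x => ((x.1.1 * x.1.2 * x.2 : ℕ) : ZMod d))
      (fun x => (v x.1.1 / (x.1.1 : ℂ) * (v x.1.2 / (x.1.2 : ℂ))) * (v x.2 / (x.2 : ℂ))) b‖ ≤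
      ∑ x ∈ ((N ×ˢ N) ×ˢ N).filter
        (fun x => ((x.1.1 * x.1.2 * x.2 : ℕ) : ZMod d) = (b : ZMod d)),
        (1 : ℝ) / ((x.1.1 : ℝ) * x.1.2 * (x.2 : ℝ)) := by
    unfold cw
    refine (norm_sum_le _ _).trans ?_
    refine le_trans (Finset.sum_le_sum (fun x _ => hc x)) (le_of_eq ?_)
    refine Finset.sum_congr ?_ (fun _ _ => rfl)
    ext x
    simp only [Finset.mem_filter]
  have h3 := hR b
  have h2' : ‖cw ((N ×ˢ N) ×ˢ N)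
      (fun x => ((x.1.1 * x.1.2 * x.2 : ℕ) : ZMod d))
      (fun x => (v x.1.1 / (x.1.1 : ℂ) * (v x.1.2 / (x.1.2 : ℂ))) * (v x.2 / (x.2 : ℂ))) b‖ ≤ R := by
    refine h2.trans (le_trans (le_of_eq ?_) h3)
    refine Finset.sum_congr ?_ (fun _ _ => rfl)
    ext x
    simp only [Finset.mem_filter]
  have h4 : 0 ≤ ‖cw ((N ×ˢ N) ×ˢ N)
      (fun x => ((x.1.1 * x.1.2 * x.2 : ℕ) : ZMod d))
      (fun x => (v x.1.1 / (x.1.1 : ℂ) * (v x.1.2 / (x.1.2 : ℂ))) * (v x.2 / (x.2 : ℂ))) b‖ :=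
    norm_nonneg _
  rw [sq]
  refine mul_le_mul h2' (h2.trans (le_of_eq ?_)) h4 (h4.trans h2')
  refine Finset.sum_congr ?_ (fun _ _ => rfl)
  ext x
  simp only [Finset.mem_filter]

end Pool.Agent.Lib.MP_42948a_nt.TB
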