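import Pool.Agent.Lib.MP_42948a_nt.TB.K
import Pool.Agent.Lib.MP_42948a_nt.BM.P

/-!
# The final theorem (job P)

Copy `final` of `BM/P.lean` without `θ` and `Cub`: `K3_uniform` in place of `K_uniform`, the exponents `k / 3` in place of `k / 4`, `3` in place of `4` and `6` in place of `8` (`k' = min k (m + 8)`, `hE 3`, `hE (k' - 3)`,
`m + 2 ≤ min m 3 + min m (k' - 3) + J.card`).
-/

namespace Pool.Agent.Lib.MP_42948a_nt.TB

open Finset Pool.Agent.Lib.MP_42948a_nt.OA Pool.Agent.Lib.MP_42948a_nt.OM Pool.Agent.Lib.MP_42948a_nt.BM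

theorem final3 (hBur : Bur3) (m : ℕ) (hm : m.Prime) (hm2 : m ≠ 2) (ε : ℝ) (hε : 0 < ε) :
    ∃ δ c : ℝ, 0 < δ ∧ 0 < c ∧ ∃ d₀ : ℕ, ∀ d : ℕ, d₀ ≤ d → ∀ k : ℕ, 3 ≤ k →
      ∀ J : Finset (ZMod m), J.Nonempty → ∃ B : Finset (ZMod d)ˣ,
        min 1 (((k : ℝ) + J.card - 1) / m) * (d.totient : ℝ) -
          (if 6 ≤ k ∧ m + 2 ≤ k + J.card then 0 else (d : ℝ) ^ (1 - c)) ≤ B.card ∧
        ∀ b ∈ B, ∃ n : ℕ, 0 < n ∧ (n : ℝ) ≤ (d : ℝ) ^ ((k : ℝ) / 3 + ε) ∧ (n : ZMod d) = (b : ZMod d) ∧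
          (∀ p : ℕ, p.Prime → p ∣ n → (d : ℝ) ^ δ < p) ∧
          (ArithmeticFunction.cardFactors n : ZMod m) ∈ J := by
  have hm3 : 3 ≤ m := by
    have := hm.two_le
    omega
  have : NeZero m := ⟨by omega⟩
  -- the number of small primes
  obtain ⟨K, hK⟩ := exists_nat_ge (2 * (m : ℝ) / ε)
  set K1 : ℕ := K + 1 with hK1
  have hK1pos : (0 : ℝ) < K1 := by exact_mod_cast Nat.succ_pos K
  have hmK : (m : ℝ) / K1 ≤ ε / 2 := by
    rw [div_le_iff₀ hK1pos]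
    have h1 : (K : ℝ) ≤ K1 := by rw [hK1]; push_cast; linarith
    have h2 : 2 * (m : ℝ) / ε ≤ K1 := hK.trans h1
    rw [div_le_iff₀ hε] at h2
    linarith
  have hδ1 : 0 < 1 / (2 * (K1 : ℝ)) := by positivity
  obtain ⟨δ, c, hδ, hδ', hc, hc1, d1, hd1⟩ :=
    K3_uniform hBur m hm hm3 (ε / 2) (by linarith) (1 / (2 * (K1 : ℝ))) hδ1 (m + 8)
  obtain ⟨d2, hd2⟩ := many_primes K1 (by omega) (1 / 2) (by norm_num) (by norm_num)
  obtain ⟨d3, hd3⟩ := M_two c hc hc1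
  refine ⟨δ, c, hδ, hc, max (max d1 d2) (max d3 2), fun d hd k hk J hJ => ?_⟩
  have hdd1 : d1 ≤ d := (le_max_left _ _).trans ((le_max_left _ _).trans hd)
  have hdd2 : d2 ≤ d := (le_max_right _ _).trans ((le_max_left _ _).trans hd)
  have hdd3 : d3 ≤ d := (le_max_left _ _).trans ((le_max_right _ _).trans hd)
  have hd2' : 2 ≤ d := (le_max_right _ _).trans ((le_max_right _ _).trans hd)
  have : NeZero d := ⟨by omega⟩
  have hdR : (1 : ℝ) ≤ d := by exact_mod_cast (by omega : 1 ≤ d)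
  have hd0 : (0 : ℝ) < d := by linarith
  obtain ⟨z, hz⟩ : ∃ z : ℕ, z = ⌊(d : ℝ) ^ δ⌋₊ := ⟨_, rfl⟩
  have hE := hd1 d hdd1
  rw [← hz] at hE
  have hJm : J.card ≤ m := by
    have := card_le_univ J
    rwa [ZMod.card] at this
  have hJ1 := hJ.card_pos
  have hmpos : (0 : ℝ) < m := by exact_mod_cast hm.pos
  by_cases hall : 6 ≤ k ∧ m + 2 ≤ k + J.card
  · -- every class
    rw [if_pos hall]
    obtain ⟨k', hk'⟩ : ∃ k' : ℕ, k' = min k (m + 8) := ⟨_, rfl⟩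
    have hk'1 : 6 ≤ k' := by rw [hk']; exact le_min hall.1 (by omega)
    have hk'2 : k' ≤ m + 8 := by rw [hk']; exact min_le_right _ _
    have hk'3 : k' ≤ k := by rw [hk']; exact min_le_left _ _
    have hk'4 : m + 2 ≤ k' + J.card := by
      rw [hk']
      rcases le_total k (m + 8) with h | h
      · rw [min_eq_left h]; exact hall.2
      · rw [min_eq_right h]; omega
    obtain ⟨E1, hE11, hE12⟩ := hE 3 le_rfl (by omega)
    obtain ⟨E2, hE21, hE22⟩ := hE (k' - 3) (by omega) (by omega)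
    have hX : ⌊(d : ℝ) ^ (((3 : ℕ) : ℝ) / 3 + ε / 2)⌋₊ * ⌊(d : ℝ) ^ (((k' - 3 : ℕ) : ℝ) / 3 + ε / 2)⌋₊ ≤
        ⌊(d : ℝ) ^ ((k : ℝ) / 3 + ε)⌋₊ := by
      refine (M_floor_mul (Real.rpow_nonneg hd0.le _) (Real.rpow_nonneg hd0.le _)).trans ?_
      apply Nat.floor_le_floor
      rw [← Real.rpow_add hd0]
      apply Real.rpow_le_rpow_of_exponent_le hdR
      have h1 : ((k' - 3 : ℕ) : ℝ) = (k' : ℝ) - 3 := by
        rw [Nat.cast_sub (by omega)]
        norm_num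
      have h2 : (k' : ℝ) ≤ k := by exact_mod_cast hk'3
      rw [h1]
      push_cast
      linarith
    have hcard : E1.card + E2.card < d.totient := by
      have h1 := hd3 d hdd3
      have h2 : (E1.card : ℝ) + (E2.card : ℝ) < (d.totient : ℝ) := by linarith
      exact_mod_cast h2
    have hkk : m + 2 ≤ min m 3 + min m (k' - 3) + J.card := by
      rcases le_total m (k' - 3) with h | h
      · rw [min_eq_left h]
        have : 3 ≤ min m 3 := le_min hm3 le_rfl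
        omega
      · rw [min_eq_right h]
        have : min m 3 = 3 := min_eq_right hm3
        omega
    refine ⟨univ, ?_, fun b _ => ?_⟩
    · rw [card_univ, ZMod.card_units_eq_totient, sub_zero]
      exact mul_le_of_le_one_left (Nat.cast_nonneg _) (min_le_left _ _)
    · obtain ⟨j, hj, hmem⟩ := all_classes_J m (min m 3) (min m (k' - 3)) z _ _ _ d hm
        (le_min (by omega) (by omega)) (le_min (by omega) (by omega)) hX E1 E2 hE12 hE22 hcard J hJ hkk b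
      obtain ⟨n, h1, h2, h3, h4, h5⟩ := M_mem.1 hmem
      refine ⟨n, h1, ?_, h4, M_rough hz h3, ?_⟩
      · exact (Nat.le_floor_iff (Real.rpow_nonneg hd0.le _)).1 h2
      · rw [h5]
        exact hj
  · rw [if_neg hall]
    -- a small prime
    obtain ⟨l, hl⟩ : ∃ l, l ∈ primesOff d z ⌊(d : ℝ) ^ (1 / (K1 : ℝ))⌋₊ := by
      have hzd : (z : ℝ) ≤ (d : ℝ) ^ (1 / (2 * (K1 : ℝ))) := by
        rw [hz]
        exact (Nat.floor_le (Real.rpow_nonneg hd0.le _)).trans (Real.rpow_le_rpow_of_exponent_le hdR hδ')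
      have h1 := hd2 d hdd2 z hzd
      have h2 : (0 : ℝ) < (K1 : ℝ) * (d : ℝ) ^ ((1 - 1 / 2) / (K1 : ℝ)) :=
        mul_pos hK1pos (Real.rpow_pos_of_pos hd0 _)
      have h3 : 0 < (primesOff d z ⌊(d : ℝ) ^ (1 / (K1 : ℝ))⌋₊).card := by
        exact_mod_cast lt_of_lt_of_le h2 h1
      exact Finset.card_pos.1 h3
    have hl' := hl
    unfold primesOff at hl'
    obtain ⟨hl1, hl2, hl3, hl4⟩ := mem_filter.1 hl'
    have hlle : l ≤ ⌊(d : ℝ) ^ (1 / (K1 : ℝ))⌋₊ := (mem_Icc.1 hl1).2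
    have hlm : ((l ^ m : ℕ) : ℝ) ≤ (d : ℝ) ^ (ε / 2) := by
      have h1 : (l : ℝ) ≤ (d : ℝ) ^ (1 / (K1 : ℝ)) := by
        refine le_trans ?_ (Nat.floor_le (Real.rpow_nonneg hd0.le _))
        exact_mod_cast hlle
      push_cast
      calc (l : ℝ) ^ m ≤ ((d : ℝ) ^ (1 / (K1 : ℝ))) ^ m := pow_le_pow_left₀ (Nat.cast_nonneg _) h1 _
        _ = (d : ℝ) ^ ((m : ℝ) / K1) := by
            rw [← Real.rpow_natCast, ← Real.rpow_mul hd0.le]
            congr 1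
            ring
        _ ≤ (d : ℝ) ^ (ε / 2) := Real.rpow_le_rpow_of_exponent_le hdR hmK
    obtain ⟨k', hk'⟩ : ∃ k' : ℕ, k' = min k (m + 8) := ⟨_, rfl⟩
    have hk'1 : 3 ≤ k' := by rw [hk']; exact le_min hk (by omega)
    have hk'2 : k' ≤ m + 8 := by rw [hk']; exact min_le_right _ _
    have hk'3 : k' ≤ k := by rw [hk']; exact min_le_left _ _
    have hk'R : (k' : ℝ) ≤ k := by exact_mod_cast hk'3
    obtain ⟨E, hE1, hE2⟩ := hE k' hk'1 hk'2
    have hX : l ^ m * ⌊(d : ℝ) ^ ((k' : ℝ) / 3 + ε / 2)⌋₊ ≤ ⌊(d : ℝ) ^ ((k : ℝ) / 3 + ε)⌋₊ := by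
      apply Nat.le_floor
      rw [Nat.cast_mul]
      calc ((l ^ m : ℕ) : ℝ) * (⌊(d : ℝ) ^ ((k' : ℝ) / 3 + ε / 2)⌋₊ : ℝ) ≤
          (d : ℝ) ^ (ε / 2) * (d : ℝ) ^ ((k' : ℝ) / 3 + ε / 2) :=
            mul_le_mul hlm (Nat.floor_le (Real.rpow_nonneg hd0.le _)) (Nat.cast_nonneg _)
              (Real.rpow_nonneg hd0.le _)
        _ = (d : ℝ) ^ ((k' : ℝ) / 3 + ε) := by
            rw [← Real.rpow_add hd0]
            congr 1
            ring
        _ ≤ (d : ℝ) ^ ((k : ℝ) / 3 + ε) := Real.rpow_le_rpow_of_exponent_le hdR (by linarith)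
    obtain ⟨B, hB1, hB2⟩ := count_J m (min m k') z _ _ l d hm (le_min (by omega) (by omega)) hl2 hl3 hl4 hX E hE2 J hJ
    refine ⟨B, ?_, fun b hb => ?_⟩
    · refine le_trans ?_ hB1
      have hE0 : (0 : ℝ) ≤ E.card := Nat.cast_nonneg _
      have hφ0 : (0 : ℝ) ≤ (d.totient : ℝ) := Nat.cast_nonneg _
      have hJ1R : (1 : ℝ) ≤ J.card := by exact_mod_cast hJ1
      have hmono : min 1 (((k : ℝ) + J.card - 1) / m) ≤ min 1 ((((min m k' : ℕ) : ℝ) + J.card - 1) / m) := by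
        rcases le_total m k' with h | h
        · rw [min_eq_left h]
          apply le_min (min_le_left _ _)
          refine (min_le_left _ _).trans ?_
          rw [le_div_iff₀ hmpos]
          linarith
        · have h1 : k' = k := by omega
          rw [min_eq_right h, h1]
      have hle1 : min 1 ((((min m k' : ℕ) : ℝ) + J.card - 1) / m) ≤ 1 := min_le_left _ _
      set μ := min 1 ((((min m k' : ℕ) : ℝ) + J.card - 1) / m) with hμ
      have h1 : min 1 (((k : ℝ) + J.card - 1) / m) * (d.totient : ℝ) ≤ μ * (d.totient : ℝ) :=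
        mul_le_mul_of_nonneg_right hmono hφ0
      have h2 : μ * E.card ≤ E.card := mul_le_of_le_one_left hE0 hle1
      rw [mul_sub]
      linarith
    · obtain ⟨j, hj, hmem⟩ := hB2 b hb
      obtain ⟨n, h1, h2, h3, h4, h5⟩ := M_mem.1 hmem
      refine ⟨n, h1, ?_, h4, M_rough hz h3, ?_⟩
      · exact (Nat.le_floor_iff (Real.rpow_nonneg hd0.le _)).1 h2
      · rw [h5]
        exact hj

end Pool.Agent.Lib.MP_42948a_nt.TB
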