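import Pool.Agent.Lib.MP_42948a_nt.TB.Defs
import Pool.Agent.Lib.MP_42948a_nt.BM.T0

/-!
# The vanishing of the third step at the identity (job T0)

Copy `no_rep` of `BM/T0.lean` with one step less.
-/

namespace Pool.Agent.Lib.MP_42948a_nt.TB

open Finset Pool.Agent.Lib.MP_42948a_nt.OA Pool.Agent.Lib.MP_42948a_nt.OM Pool.Agent.Lib.MP_42948a_nt.BM

theorem no_rep2 {m d : ℕ} [NeZero m] [NeZero d] (Q : Finset ℕ) (ω : ℕ → ℝ) (B : Finset (ZMod d)ˣ)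
    (J : Finset (ZMod m))
    (h : ∀ a1 ∈ Q, ∀ a2 ∈ Q, ∀ a3 ∈ Q, ucl d a1 * ucl d a2 * ucl d a3 ∈ B →
      ((Om a1 : ZMod m) + (Om a2 : ZMod m) + (Om a3 : ZMod m)) ∉ J) :
    ∑ a ∈ Q, ω a * stp Q ω (stp Q ω (F0 B J)) (ucl d a) (Om a : ZMod m) = 0 := by
  unfold stp
  refine Finset.sum_eq_zero fun a1 h1 => ?_
  refine mul_eq_zero_of_right _ (Finset.sum_eq_zero fun a2 h2 => ?_)
  refine mul_eq_zero_of_right _ (Finset.sum_eq_zero fun a3 h3 => ?_)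
  refine mul_eq_zero_of_right _ ?_
  unfold F0
  rw [if_neg]
  rintro ⟨hB, hJ⟩
  exact h a1 h1 a2 h2 a3 h3 hB hJ

theorem FT_RF_stp2 {m d : ℕ} [NeZero m] [NeZero d] (Q : Finset ℕ) (ω : ℕ → ℝ) (hQ : ∀ a ∈ Q, a.Coprime d)
    (F : (ZMod d)ˣ → ZMod m → ℝ) (i : ZMod m) (χ : DirichletCharacter ℂ d) :
    FT (RF (stp Q ω (stp Q ω F)) i) χ = AA Q ω (-i) χ ^ 2 * FT (RF F i) χ := by
  rw [FT_RF_stp Q ω hQ, FT_RF_stp Q ω hQ]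
  ring

end Pool.Agent.Lib.MP_42948a_nt.TB
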