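import Pool.Agent.Lib.MP_42948a_nt.TB.T0
import Pool.Agent.Lib.MP_42948a_nt.BM.T1
import Pool.Agent.Lib.MP_42948a_nt.BM.A4

/-!
# The projection to `X`: Wiener norm and closeness (job T1)

Copy `BM/T1.lean` with `F2 = stp (stp F0)` in place of `F3` and `FT_RF_stp2` (`TB/T0.lean`) in place of `FT_RF_stp3`.
`Wn_rX2`: `∑_{χ ∈ X} ‖AA (-i) χ‖ ^ 2 m δ ≤ (1 + τ) m δ ≤ 2 m δ` by `W.bessel` directly. `close2`: `∑_{χ ∈ offX X} ‖FT (RF F2 i) χ‖ ^ 2 ≤ s ^ 4 ∑_χ ‖FT (RF F0 i) χ‖ ^ 2 ≤ s ^ 4 m ^ 2 δ ≤ s ^ 3 m ^ 2 δ ^ 2` (`s ≤ δ`).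
-/

namespace Pool.Agent.Lib.MP_42948a_nt.TB

open Finset Pool.Agent.Lib.MP_42948a_nt.OA Pool.Agent.Lib.MP_42948a_nt.OM Pool.Agent.Lib.MP_42948a_nt.BM

private theorem TT1_phi_pos (d : ℕ) [NeZero d] : (0 : ℝ) < (d.totient : ℝ) := by
  exact_mod_cast Nat.totient_pos.2 (Nat.pos_of_ne_zero (NeZero.ne d))

private theorem TT1_m_pos (m : ℕ) [NeZero m] : (0 : ℝ) < (m : ℝ) := by
  exact_mod_cast (Nat.pos_of_ne_zero (NeZero.ne m))

theorem Wn_rX2 {m d : ℕ} [NeZero m] [NeZero d] {z Y : ℕ} {β τ s s2 : ℝ} (W : Wlk m d z Y β τ s s2) (hτ : τ ≤ 1)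
    (B : Finset (ZMod d)ˣ) (J : Finset (ZMod m)) (x : ZMod m) :
    Wn (fun g => ((rX W.X (stp W.Q W.ω (stp W.Q W.ω (F0 B J))) g x : ℝ) : ℂ)) ≤
      2 * (m : ℝ) * ((B.card : ℝ) / (d.totient : ℝ)) := by
  classical
  set F2 := stp W.Q W.ω (stp W.Q W.ω (F0 B J)) with hF2
  set δ : ℝ := (B.card : ℝ) / (d.totient : ℝ) with hδ
  have hφ := TT1_phi_pos d
  have hm := TT1_m_pos m
  have hδ0 : 0 ≤ δ := div_nonneg (Nat.cast_nonneg _) hφ.le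
  have hmδ : 0 ≤ (m : ℝ) * δ := mul_nonneg hm.le hδ0
  set c : DirichletCharacter ℂ d → ℂ := fun χ =>
    if χ ∈ W.X then (1 / (m : ℂ)) * ∑ i : ZMod m, es (-(i * x)) * FT (RF F2 i) χ else 0 with hc
  have h1 : Wn (fun g => ((rX W.X F2 g x : ℝ) : ℂ)) ≤
      Wn (fun g : (ZMod d)ˣ => (1 / (m : ℂ)) * ∑ i : ZMod m, es (-(i * x)) * ∑ χ ∈ W.X, FT (RF F2 i) χ * χ (g : ZMod d)) :=
    Wn_re _
  refine h1.trans ?_
  have h2 := Wn_le_of c (fun g : (ZMod d)ˣ => (1 / (m : ℂ)) * ∑ i : ZMod m, es (-(i * x)) *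
    ∑ χ ∈ W.X, FT (RF F2 i) χ * χ (g : ZMod d)) ?_
  · refine h2.trans ?_
    have h3 : ∑ χ : DirichletCharacter ℂ d, ‖c χ‖ =
        ∑ χ ∈ W.X, ‖(1 / (m : ℂ)) * ∑ i : ZMod m, es (-(i * x)) * FT (RF F2 i) χ‖ := by
      have h4 : ∀ χ : DirichletCharacter ℂ d, ‖c χ‖ =
          if χ ∈ W.X then ‖(1 / (m : ℂ)) * ∑ i : ZMod m, es (-(i * x)) * FT (RF F2 i) χ‖ else 0 := by
        intro χ
        by_cases h : χ ∈ W.X
        · simp only [hc, if_pos h]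
        · simp only [hc, if_neg h, norm_zero]
      rw [Finset.sum_congr rfl (fun χ _ => h4 χ), Finset.sum_ite_mem, Finset.univ_inter]
    rw [h3]
    have h5 : ∀ χ ∈ W.X, ‖(1 / (m : ℂ)) * ∑ i : ZMod m, es (-(i * x)) * FT (RF F2 i) χ‖ ≤
        (1 / (m : ℝ)) * ∑ i : ZMod m, ‖AA W.Q W.ω (-i) χ‖ ^ 2 * ((m : ℝ) * δ) := by
      intro χ _
      rw [norm_mul, norm_div, norm_one, Complex.norm_natCast]
      refine mul_le_mul_of_nonneg_left ?_ (by positivity)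
      refine (norm_sum_le _ _).trans (Finset.sum_le_sum fun i _ => ?_)
      rw [norm_mul, es_norm, one_mul, hF2, FT_RF_stp2 W.Q W.ω W.cop, norm_mul, norm_pow]
      have h6 := FT_F0_le B J i χ
      exact mul_le_mul le_rfl h6 (norm_nonneg _) (by positivity)
    refine (Finset.sum_le_sum h5).trans ?_
    rw [← Finset.mul_sum, Finset.sum_comm]
    have h9 : ∀ i : ZMod m, ∑ χ ∈ W.X, ‖AA W.Q W.ω (-i) χ‖ ^ 2 * ((m : ℝ) * δ) ≤ 2 * ((m : ℝ) * δ) := by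
      intro i
      rw [← Finset.sum_mul]
      refine mul_le_mul_of_nonneg_right ?_ hmδ
      have := W.bessel (-i)
      linarith
    have h10 : ∑ i : ZMod m, ∑ χ ∈ W.X, ‖AA W.Q W.ω (-i) χ‖ ^ 2 * ((m : ℝ) * δ) ≤ (m : ℝ) * (2 * ((m : ℝ) * δ)) := by
      refine (Finset.sum_le_sum fun i _ => h9 i).trans ?_
      rw [Finset.sum_const, Finset.card_univ, ZMod.card, nsmul_eq_mul]
    calc (1 / (m : ℝ)) * ∑ i : ZMod m, ∑ χ ∈ W.X, ‖AA W.Q W.ω (-i) χ‖ ^ 2 * ((m : ℝ) * δ)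
        ≤ (1 / (m : ℝ)) * ((m : ℝ) * (2 * ((m : ℝ) * δ))) := mul_le_mul_of_nonneg_left h10 (by positivity)
      _ = 2 * (m : ℝ) * δ := by field_simp
  · intro g
    have h4 : ∀ χ : DirichletCharacter ℂ d, c χ * χ (g : ZMod d) =
        if χ ∈ W.X then ((1 / (m : ℂ)) * ∑ i : ZMod m, es (-(i * x)) * FT (RF F2 i) χ) * χ (g : ZMod d) else 0 := by
      intro χ
      by_cases h : χ ∈ W.X
      · simp only [hc, if_pos h]
      · simp only [hc, if_neg h, zero_mul]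
    rw [Finset.sum_congr rfl (fun χ _ => h4 χ), Finset.sum_ite_mem, Finset.univ_inter]
    simp only [Finset.mul_sum, Finset.sum_mul]
    rw [Finset.sum_comm]
    refine Finset.sum_congr rfl fun χ _ => Finset.sum_congr rfl fun i _ => ?_
    ring

theorem close2 {m d : ℕ} [NeZero m] [NeZero d] {z Y : ℕ} {β τ s s2 : ℝ} (W : Wlk m d z Y β τ s s2) (hs0 : 0 < s)
    (B : Finset (ZMod d)ˣ) (J : Finset (ZMod m)) (hB : s * (d.totient : ℝ) ≤ B.card) :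
    mn (fun g => ∑ x : ZMod m, (stp W.Q W.ω (stp W.Q W.ω (F0 B J)) g x -
        rX W.X (stp W.Q W.ω (stp W.Q W.ω (F0 B J))) g x) ^ 2) ≤
      (m : ℝ) ^ 2 * s ^ 3 * ((B.card : ℝ) / (d.totient : ℝ)) ^ 2 := by
  classical
  set F2 := stp W.Q W.ω (stp W.Q W.ω (F0 B J)) with hF2
  set δ : ℝ := (B.card : ℝ) / (d.totient : ℝ) with hδ
  have hφ := TT1_phi_pos d
  have hm := TT1_m_pos m
  have hsδ : s ≤ δ := by rw [hδ, le_div_iff₀ hφ]; exact hB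
  have hδ0 : 0 ≤ δ := hs0.le.trans hsδ
  set D : ZMod m → (ZMod d)ˣ → ℂ := fun i g => ∑ χ ∈ offX W.X, FT (RF F2 i) χ * χ (g : ZMod d) with hD
  have hdiff : ∀ (g : (ZMod d)ˣ) (x : ZMod m), F2 g x - rX W.X F2 g x =
      ((1 / (m : ℂ)) * ∑ i : ZMod m, es (-(i * x)) * D i g).re := by
    intro g x
    have h1 : (F2 g x : ℂ) = (1 / (m : ℂ)) * ∑ i : ZMod m, es (-(i * x)) * ∑ χ ∈ W.X, FT (RF F2 i) χ * χ (g : ZMod d) +
        (1 / (m : ℂ)) * ∑ i : ZMod m, es (-(i * x)) * D i g := by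
      rw [← mul_add, ← Finset.sum_add_distrib, RF_inv F2 g x]
      congr 1
      refine Finset.sum_congr rfl fun i _ => ?_
      rw [← mul_add]
      congr 1
      rw [FT_inv (RF F2 i) g, sum_offX W.X]
    have h2 : F2 g x = ((F2 g x : ℂ)).re := (Complex.ofReal_re _).symm
    rw [h2, h1, Complex.add_re, rX]
    ring
  have hsq : ∀ g : (ZMod d)ˣ, ∑ x : ZMod m, (F2 g x - rX W.X F2 g x) ^ 2 ≤ (1 / (m : ℝ)) * ∑ i : ZMod m, ‖D i g‖ ^ 2 := by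
    intro g
    have h1 : ∀ x : ZMod m, (F2 g x - rX W.X F2 g x) ^ 2 ≤
        (1 / (m : ℝ)) ^ 2 * ‖∑ i : ZMod m, es (-(i * x)) * D i g‖ ^ 2 := by
      intro x
      rw [hdiff g x]
      have h2 := Complex.abs_re_le_norm ((1 / (m : ℂ)) * ∑ i : ZMod m, es (-(i * x)) * D i g)
      have h3 : ‖(1 / (m : ℂ)) * ∑ i : ZMod m, es (-(i * x)) * D i g‖ =
          (1 / (m : ℝ)) * ‖∑ i : ZMod m, es (-(i * x)) * D i g‖ := by
        rw [norm_mul, norm_div, norm_one, Complex.norm_natCast]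
      rw [← mul_pow, ← h3, ← sq_abs]
      exact pow_le_pow_left₀ (abs_nonneg _) h2 2
    refine (Finset.sum_le_sum fun x _ => h1 x).trans ?_
    rw [← Finset.mul_sum, RF_sq (fun i => D i g)]
    apply le_of_eq
    field_simp
  have hFT : ∀ (i : ZMod m) (χ : DirichletCharacter ℂ d), FT (D i) χ = if χ ∈ offX W.X then FT (RF F2 i) χ else 0 := by
    intro i χ
    refine FT_uniq (fun χ => if χ ∈ offX W.X then FT (RF F2 i) χ else 0) (D i) (fun g => ?_) χ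
    have h4 : ∀ χ : DirichletCharacter ℂ d, (if χ ∈ offX W.X then FT (RF F2 i) χ else 0) * χ (g : ZMod d) =
        if χ ∈ offX W.X then FT (RF F2 i) χ * χ (g : ZMod d) else 0 := by
      intro χ
      by_cases h : χ ∈ offX W.X
      · simp only [if_pos h]
      · simp only [if_neg h, zero_mul]
    rw [Finset.sum_congr rfl (fun χ _ => h4 χ), Finset.sum_ite_mem, Finset.univ_inter]
  have hpar : ∀ i : ZMod m, (∑ g : (ZMod d)ˣ, ‖D i g‖ ^ 2) / (d.totient : ℝ) ≤ (m : ℝ) ^ 2 * s ^ 3 * δ ^ 2 := by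
    intro i
    rw [← FT_parseval (D i)]
    have h1 : ∀ χ : DirichletCharacter ℂ d, ‖FT (D i) χ‖ ^ 2 ≤ s ^ 4 * ‖FT (RF (F0 B J) i) χ‖ ^ 2 := by
      intro χ
      rw [hFT i χ]
      by_cases h : χ ∈ offX W.X
      · rw [if_pos h, hF2, FT_RF_stp2 W.Q W.ω W.cop, norm_mul, norm_pow, mul_pow, ← pow_mul]
        refine mul_le_mul_of_nonneg_right ?_ (by positivity)
        exact pow_le_pow_left₀ (norm_nonneg _) (W.off (-i) χ (mem_offX.1 h)) 4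
      · rw [if_neg h, norm_zero, zero_pow two_ne_zero]
        positivity
    refine (Finset.sum_le_sum fun χ _ => h1 χ).trans ?_
    rw [← Finset.mul_sum]
    have h2 := FT_F0_sq B J i
    calc s ^ 4 * ∑ χ : DirichletCharacter ℂ d, ‖FT (RF (F0 B J) i) χ‖ ^ 2 ≤ s ^ 4 * ((m : ℝ) ^ 2 * δ) :=
          mul_le_mul_of_nonneg_left h2 (by positivity)
      _ = (m : ℝ) ^ 2 * s ^ 3 * (s * δ) := by ring
      _ ≤ (m : ℝ) ^ 2 * s ^ 3 * (δ * δ) :=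
          mul_le_mul_of_nonneg_left (mul_le_mul_of_nonneg_right hsδ hδ0) (by positivity)
      _ = (m : ℝ) ^ 2 * s ^ 3 * δ ^ 2 := by ring
  rw [mn, div_le_iff₀ hφ]
  refine (Finset.sum_le_sum fun g _ => hsq g).trans ?_
  rw [← Finset.mul_sum, Finset.sum_comm]
  have h5 : ∀ i : ZMod m, ∑ g : (ZMod d)ˣ, ‖D i g‖ ^ 2 ≤ (m : ℝ) ^ 2 * s ^ 3 * δ ^ 2 * (d.totient : ℝ) :=
    fun i => (div_le_iff₀ hφ).1 (hpar i)
  have h6 : ∑ i : ZMod m, ∑ g : (ZMod d)ˣ, ‖D i g‖ ^ 2 ≤ (m : ℝ) * ((m : ℝ) ^ 2 * s ^ 3 * δ ^ 2 * (d.totient : ℝ)) := by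
    refine (Finset.sum_le_sum fun i _ => h5 i).trans ?_
    rw [Finset.sum_const, Finset.card_univ, ZMod.card, nsmul_eq_mul]
  calc (1 / (m : ℝ)) * ∑ i : ZMod m, ∑ g : (ZMod d)ˣ, ‖D i g‖ ^ 2
      ≤ (1 / (m : ℝ)) * ((m : ℝ) * ((m : ℝ) ^ 2 * s ^ 3 * δ ^ 2 * (d.totient : ℝ))) :=
        mul_le_mul_of_nonneg_left h6 (by positivity)
    _ = (m : ℝ) ^ 2 * s ^ 3 * δ ^ 2 * (d.totient : ℝ) := by field_simp

end Pool.Agent.Lib.MP_42948a_nt.TB
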