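import Pool.Agent.Lib.MP_42948a_nt.TB.Defs
import Pool.Agent.Lib.MP_42948a_nt.BM.T6a

/-!
# Choice of the constants (job T6a)

Copy `choose_s0` of `BM/T6a.lean` (with its private lemmas `T6a_kp3`, `T6a_one_le`; `consts_pos`, `tau0_le` can be cited): now with `s` in place of `s ^ 2` and `s ^ 3` in place of `s ^ 5` (`s ^ 3 / s ^ 2 = s`). With `M = 2 m`, `c = c3 m β`,
`ε = c/(8 m M^m)`: for `s, s2 ≤ s0 ≤ 1` the left side is `≤ M^m (m s0 + 4 m^2 s0 + 2 m s0 C) + c/2` and the right side is `≥ 3 c - s0 (m^2 + M^m + M^m m^2)` (`(kp3/2)^m ≤ 1`, `(kp3/2)^m * rh3 = 4 c`), so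
`s0 = min(1, β^2/100, rh1/2, kp3/2, c/(M^m (m + 4 m^2 + 2 m C + 1 + m^2) + m^2 + 1))` works as before.
-/

namespace Pool.Agent.Lib.MP_42948a_nt.TB

open Finset Pool.Agent.Lib.MP_42948a_nt.OA Pool.Agent.Lib.MP_42948a_nt.OM Pool.Agent.Lib.MP_42948a_nt.BM

private theorem TBT6a_kp3 (m : ℕ) (hm : 3 ≤ m) (β : ℝ) (hβ : 0 < β) (hβ1 : β ≤ 1) :
    kp3 m β ≤ 1 ∧ (kp3 m β / 2) ^ m ≤ 1 := by
  obtain ⟨h1, h2, h3, -, -, -⟩ := consts_pos m hm β hβ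
  have hg : gam m β ≤ 1 := by
    unfold gam
    rw [div_le_one (by positivity)]
    have e1 : β ^ 2 ≤ 1 := pow_le_one₀ hβ.le hβ1
    have e2 : (1 : ℝ) ≤ 2 ^ m := one_le_pow₀ (by norm_num)
    linarith
  have hr : rh1 β / 2 ≤ 1 := by
    unfold rh1
    have e1 : β ^ 4 ≤ 1 := pow_le_one₀ hβ.le hβ1
    linarith
  have hk : kp3 m β ≤ 1 := by
    unfold kp3
    have e1 : gam m β ^ 3 ≤ 1 := pow_le_one₀ h1.le hg
    have e2 : (rh1 β / 2) ^ 2 ≤ 1 := pow_le_one₀ (by positivity) hr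
    exact mul_le_one₀ e1 (by positivity) e2
  exact ⟨hk, pow_le_one₀ (by positivity) (by linarith)⟩

private theorem TBT6a_one_le (m : ℕ) (hm : 3 ≤ m) : (1 : ℝ) ≤ (2 * (m : ℝ)) ^ m := by
  apply one_le_pow₀
  have : (3 : ℝ) ≤ m := by exact_mod_cast hm
  linarith

theorem choose_s02 (m : ℕ) (hm : 3 ≤ m) (β : ℝ) (hβ : 0 < β) (hβ1 : β ≤ 1) (C : ℝ) (hC : 0 ≤ C) :
    ∃ s0 : ℝ, 0 < s0 ∧ s0 ≤ 1 ∧ s0 ≤ β ^ 2 / 100 ∧ s0 ≤ rh1 β / 2 ∧ s0 ≤ kp3 m β / 2 ∧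
      ∀ s s2 : ℝ, 0 < s → s ≤ s0 → 0 ≤ s2 → s2 ≤ s0 →
        (2 * (m : ℝ)) ^ m * ((m : ℝ) * s + 2 * ((m : ℝ) * (2 * ((m : ℝ) * s) +
            2 * (c3 m β / (8 * m * (2 * (m : ℝ)) ^ m)) + s2 * C))) <
          (kp3 m β / 2) ^ m * (rh3 β - (m : ℝ) ^ 2 * s ^ 3 / s ^ 2) - s * (2 * (m : ℝ)) ^ m -
            (2 * (m : ℝ)) ^ m * ((m : ℝ) ^ 2 * s ^ 3 / s ^ 2) - c3 m β := by
  obtain ⟨-, h2, h3, h4, h5, -⟩ := consts_pos m hm β hβ
  obtain ⟨-, hk⟩ := TBT6a_kp3 m hm β hβ hβ1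
  have hA := TBT6a_one_le m hm
  have hm0 : (0 : ℝ) < m := by
    have : 0 < m := by omega
    exact_mod_cast this
  have hc4 : (kp3 m β / 2) ^ m * rh3 β = 4 * c3 m β := by unfold c3; ring
  have hk0 : 0 < (kp3 m β / 2) ^ m := by positivity
  generalize (kp3 m β / 2) ^ m = k at hk hc4 hk0 ⊢
  generalize (2 * (m : ℝ)) ^ m = A at hA ⊢
  generalize hcc : c3 m β = c at h5 hc4 ⊢
  generalize (m : ℝ) = M at hm0 ⊢
  obtain ⟨D, hD⟩ : ∃ D, D = A * (M + 4 * M ^ 2 + 2 * M * C + 1 + M ^ 2) + M ^ 2 + 1 := ⟨_, rfl⟩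
  have hD0 : 0 < D := by rw [hD]; positivity
  obtain ⟨s0, hs0⟩ : ∃ s0, s0 = min (min (min 1 (β ^ 2 / 100)) (min (rh1 β / 2) (kp3 m β / 2))) (c / D) :=
    ⟨_, rfl⟩
  have a1 : s0 ≤ 1 := by
    rw [hs0]; exact (min_le_left _ _).trans ((min_le_left _ _).trans (min_le_left _ _))
  have a2 : s0 ≤ β ^ 2 / 100 := by
    rw [hs0]; exact (min_le_left _ _).trans ((min_le_left _ _).trans (min_le_right _ _))
  have a3 : s0 ≤ rh1 β / 2 := by
    rw [hs0]; exact (min_le_left _ _).trans ((min_le_right _ _).trans (min_le_left _ _))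
  have a4 : s0 ≤ kp3 m β / 2 := by
    rw [hs0]; exact (min_le_left _ _).trans ((min_le_right _ _).trans (min_le_right _ _))
  have a5 : s0 ≤ c / D := by
    rw [hs0]; exact min_le_right _ _
  have a0 : 0 < s0 := by
    rw [hs0]
    refine lt_min (lt_min (lt_min one_pos (by positivity)) (lt_min (by positivity) (by positivity)))
      (by positivity)
  refine ⟨s0, a0, a1, a2, a3, a4, ?_⟩
  intro s s2 hs hss hs2 hs2s
  have a6 : s0 * D ≤ c := by rwa [le_div_iff₀ hD0] at a5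
  have e6 : M ^ 2 * s ^ 3 / s ^ 2 = M ^ 2 * s := by
    field_simp
  have e7 : c / (8 * M * A) * (4 * M * A) = c / 2 := by
    have hA0 : A ≠ 0 := by positivity
    field_simp
    norm_num
  have hA0 : (0 : ℝ) < A := by linarith
  have lhs : A * (M * s + 2 * (M * (2 * (M * s) + 2 * (c / (8 * M * A)) + s2 * C))) =
      A * (M + 4 * M ^ 2) * s + 2 * M * C * A * s2 + c / 2 := by
    rw [← e7]
    ring
  rw [lhs, e6]
  have l1 : A * (M + 4 * M ^ 2) * s ≤ A * (M + 4 * M ^ 2) * s0 :=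
    mul_le_mul_of_nonneg_left hss (by positivity)
  have l2 : 2 * M * C * A * s2 ≤ 2 * M * C * A * s0 :=
    mul_le_mul_of_nonneg_left hs2s (by positivity)
  have r1 : k * (M ^ 2 * s) ≤ 1 * (M ^ 2 * s0) := by
    apply mul_le_mul hk _ (by positivity) (by norm_num)
    exact mul_le_mul_of_nonneg_left hss (by positivity)
  have r2 : A * (M ^ 2 * s) ≤ A * (M ^ 2 * s0) :=
    mul_le_mul_of_nonneg_left (mul_le_mul_of_nonneg_left hss (by positivity)) hA0.le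
  have r3 : s * A ≤ s0 * A := mul_le_mul_of_nonneg_right hss hA0.le
  have r4 : k * (rh3 β - M ^ 2 * s) = 4 * c - k * (M ^ 2 * s) := by
    rw [mul_sub, hc4]
  rw [r4]
  have r5 : s0 * D = A * (M + 4 * M ^ 2) * s0 + 2 * M * C * A * s0 + s0 * A + A * (M ^ 2 * s0) +
      1 * (M ^ 2 * s0) + s0 := by
    rw [hD]
    ring
  linarith

end Pool.Agent.Lib.MP_42948a_nt.TB
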